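import Pool.Agent.T9h88.IO.Basic
import Pool.Agent.TH197.J1545b

/-!
# The standard model, codes
-/

set_option autoImplicit false

namespace Pool.Agent.T9h88.IO

open Pool.Agent.TH672 (Fm Str upd num digits varStr LogK Pv upd_same upd_ne upd_self)
open Pool.Agent.TH636.BC
open Pool.Agent.T9h6.BC (sz cl sz_imp sz_all sz_pos str_instx sat_cl)
open Pool.Agent.TH838.J1549 (sat_cong sat_inst sat_inst3 free_inst Q)
open Pool.Agent.TH197.J1545 (sat_proves code_inj digits_num strs_cons)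

/-! ### codes -/

theorem rep_eq_rep (n : ℕ) : rep n = T9h6.BC.rep n := rfl
theorem tlx_eq_tlx (x : ℕ) : tlx x = T9h6.BC.tlx x := rfl

theorem str_inst' (x n : ℕ) (φ : Fml) : str (inst x n φ) = hd ++ rep n ++ tlx x ++ str φ :=
  str_instx x n φ

theorem str_psi (v m : ℕ) : str (psi v m) =
    hd ++ rep m ++ tlx 28 ++ (hd ++ rep v ++ tlx 27 ++ str θ0) := by
  rw [psi, str_inst', str_inst']

theorem zz_eq (A₀ : List Fml) (P : Fml) (κ v m : ℕ) : zz A₀ P κ v m = fZ (σ0 A₀ P κ) v m := by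
  rw [zz, code, strs_cons, str_psi, fZ, σ0]
  simp only [List.append_assoc]

theorem digits_zz (A₀ : List Fml) (P : Fml) (κ v m : ℕ) : digits (zz A₀ P κ v m) = strs (psi v m :: B A₀ P κ) :=
  digits_num _

theorem code_Am (A₀ : List Fml) (P : Fml) (κ v m : ℕ) : code (Am A₀ P κ v m) = fA (zz A₀ P κ v m) := by
  rw [fA, digits_zz, code, Am, strs_cons, al, str_inst', strs_cons]
  simp only [List.append_assoc]

theorem digits_fA (A₀ : List Fml) (P : Fml) (κ v m : ℕ) : digits (fA (zz A₀ P κ v m)) = strs (Am A₀ P κ v m) := by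
  rw [← code_Am]; exact digits_num _

theorem code_ThAm (A₀ : List Fml) (P : Fml) (κ v m : ℕ) :
    code (Th P (Am A₀ P κ v m)) = fT P (zz A₀ P κ v m) := by
  have e : str (conAll P (Am A₀ P κ v m)) =
      s1 ++ rep (fA (zz A₀ P κ v m)) ++ s2 P := by
    have : str (conAll P (Am A₀ P κ v m)) = [true, false, false, false] ++ varStr 3 ++
        str (inst 2 (code (Am A₀ P κ v m)) (off P)) := rfl
    rw [this, str_inst', code_Am, s1, s2]
    simp only [List.append_assoc]
  rw [fT, digits_fA, code, Th, strs_cons, e]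

/-! ### the standard model -/

section
variable (P : Fml) (σ : List Bool) (κ : ℕ)

/-- functions of the standard model -/
def qStd : Q (Std P σ κ) where
  o := (0 : ℕ)
  s := fun x : ℕ => (x + 1 : ℕ)
  a := fun x y : ℕ => (x + y : ℕ)
  m := fun x y : ℕ => (x * y : ℕ)
  zero_iff _ := Iff.rfl
  succ_iff _ _ := Iff.rfl
  add_iff _ _ _ := Iff.rfl
  mul_iff _ _ _ := Iff.rfl
  s_ne x := Nat.succ_ne_zero x
  s_inj x y h := Nat.succ_injective h
  cases x := by
    cases x with
    | zero => exact .inl rfl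
    | succ n => exact .inr ⟨n, rfl⟩
  a_o _ := rfl
  a_s _ _ := rfl
  m_o _ := rfl
  m_s _ _ := rfl

theorem nm_std (n : ℕ) : (qStd P σ κ).nm n = n := by
  induction n with
  | zero => rfl
  | succ n ih =>
    show (qStd P σ κ).s ((qStd P σ κ).nm n) = n + 1
    rw [ih]; rfl

theorem sat_robinson : ∀ ψ ∈ robinson, ∀ v : ℕ → ℕ, Fm.Sat (Std P σ κ) ψ v := by
  simp only [robinson, List.mem_cons, List.not_mem_nil, or_false, forall_eq_or_imp, forall_eq,
    Fm.sat_all, Fm.sat_ex, Fm.sat_imp, Fm.sat_zero, Fm.sat_succ, Fm.sat_add, Fm.sat_mul, Fm.sat_eq,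
    Fm.sat_neg, Fm.sat_or]
  simp only [Std, upd]
  refine ⟨?_, ?_, ?_, ?_, ?_, ?_, ?_, ?_, ?_, ?_, ?_, ?_, ?_, ?_, ?_⟩
  · intro v; exact ⟨(0 : ℕ), by simp⟩
  · intro v a b; simp; omega
  · intro v a; exact ⟨(a + 1 : ℕ), by simp⟩
  · intro v a b c; simp; omega
  · intro v a b; exact ⟨(a + b : ℕ), by simp⟩
  · intro v a b c d; simp; omega
  · intro v a b; exact ⟨(a * b : ℕ), by simp⟩
  · intro v a b c d; simp; intro h1 h2; rw [h1, h2]
  · intro v a b; simp; omega
  · intro v a b c; simp; omega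
  · intro v a
    rcases Nat.eq_zero_or_pos a with h | h
    · left; simpa using h
    · right; exact ⟨(a - 1 : ℕ), by simp; omega⟩
  · intro v a b; simp
  · intro v a b c d e; simp; omega
  · intro v a b; simp; intro h; rw [h]; simp
  · intro v a b c d e; simp; intro h1 h2 h3; rw [h3, h2, h1]; ring

theorem dec_zero : dec 0 = .nil := by rw [dec]; simp

theorem dec_succ (n : ℕ) : dec (n + 1) = .node (dec (Nat.unpair n).1) (dec (Nat.unpair n).2) := by
  rw [dec]; simp

theorem dec_tnum : ∀ t : Tree, dec (tnum t) = t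
  | .nil => dec_zero
  | .node a b => by
    rw [tnum, dec_succ]
    simp [dec_tnum a, dec_tnum b]

theorem sat_ExAx : ∀ ψ ∈ ExAx, ∀ v : ℕ → ℕ, Fm.Sat (Std P σ κ) ψ v := by
  simp only [ExAx, List.mem_cons, List.not_mem_nil, or_false, forall_eq_or_imp, forall_eq,
    Fm.sat_all, Fm.sat_ex, Fm.sat_op]
  constructor
  · intro v
    refine ⟨(0 : ℕ), ?_⟩
    show dec (upd v 0 0 0) = .nil
    rw [upd_same]; exact dec_zero
  · intro v a b
    refine ⟨tnum (.node (dec a) (dec b)), ?_⟩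
    have e0 : ∀ c : ℕ, upd (upd (upd v 0 a) 1 b) 2 c 0 = a := fun c => by
      rw [upd_ne _ _ (by decide), upd_ne _ _ (by decide), upd_same]
    have e1 : ∀ c : ℕ, upd (upd (upd v 0 a) 1 b) 2 c 1 = b := fun c => by
      rw [upd_ne _ _ (by decide), upd_same]
    show dec (upd (upd (upd v 0 a) 1 b) 2 _ 2) =
      .node (dec (upd (upd (upd v 0 a) 1 b) 2 _ 0)) (dec (upd (upd (upd v 0 a) 1 b) 2 _ 1))
    erw [e0, e1, upd_same]
    exact dec_tnum _

theorem sat_atom (a : At) (v : ℕ → ℕ) : Fm.Sat (Std P σ κ) a.fm v ↔ a.Tr P σ κ v := by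
  cases a <;> exact Iff.rfl

theorem sat_clause {c : Cl} (hc : c.Tr P σ κ) (v : ℕ → ℕ) : Fm.Sat (Std P σ κ) c.fm v := by
  refine sat_cl (S := Std P σ κ) (fun w => ?_) _ _
  have h : ∀ (l : List At), ((∀ p ∈ l, p.Tr P σ κ w) → c.concl.Tr P σ κ w) →
      Fm.Sat (Std P σ κ) (l.foldr (fun p f => .imp p.fm f) c.concl.fm) w := by
    intro l
    induction l with
    | nil => intro h; exact (sat_atom P σ κ _ _).2 (h (by simp))
    | cons a l ih =>
      intro h
      rw [List.foldr_cons, Fm.sat_imp]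
      intro ha
      refine ih fun hl => h ?_
      intro p hp
      rcases List.mem_cons.1 hp with rfl | hp
      · exact (sat_atom P σ κ _ _).1 ha
      · exact hl p hp
  exact h c.prem (hc w)

/-! ### consistency statements -/

variable {P}

theorem free_off (hP : Numerates P) {x : ℕ} (h : (off P).Free x) : x = 2 ∨ x = 3 := by
  have h1 := free_inst h
  have h2 : P.Free x := by simpa [Fm.neg, Fm.Free] using h1.2.2
  have := hP.free x h2
  omega

theorem sat_off (hP : Numerates P) (v : ℕ → ℕ) :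
    Fm.Sat (Std P σ κ) (off P) v ↔ ¬ PrRel (v 2) (v 3) (code [Fm.bot]) := by
  have hfn : ∀ x, P.neg.Free x → x = 2 ∨ x = 3 ∨ x = 4 := fun x hx => by
    simp only [Fm.neg, Fm.Free, or_false] at hx
    exact hP.free x hx
  have e : ∀ φ : Fml, (∀ x, φ.Free x → x = 2 ∨ x = 3 ∨ x = 4) →
      (Fm.Sat (Std P σ κ) (inst 2 (v 2) (inst 3 (v 3) (inst 4 (code [Fm.bot]) φ))) v ↔
        Fm.Sat (Std P σ κ) φ (upd v 4 (code [Fm.bot]))) := by
    intro φ hφ
    rw [sat_inst3 (qStd P σ κ) hφ]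
    simp only [nm_std]
    have : upd (upd v 2 (v 2)) 3 (v 3) = v := by rw [upd_self, upd_self]
    erw [this]
  have e2 : Fm.Sat (Std P σ κ) (off P) v ↔ Fm.Sat (Std P σ κ) P.neg (upd v 4 (code [Fm.bot])) := by
    rw [off, sat_inst (qStd P σ κ) (by omega) (fun h => by have := hfn 0 h; omega)
      (fun h => by have := hfn 1 h; omega), nm_std]
  rw [e2]
  constructor
  · intro h hpr
    obtain ⟨k, hk⟩ := hP.pos _ _ _ hpr
    have h1 := sat_proves (S := Std P σ κ) (sat_robinson P σ κ) hk v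
    rw [e P hP.free] at h1
    exact h h1
  · intro h
    obtain ⟨k, hk⟩ := hP.neg _ _ _ h
    have h1 := sat_proves (S := Std P σ κ) (sat_robinson P σ κ) hk v
    rwa [e P.neg hfn] at h1

theorem prRel_iff (Γ : List Fml) (n : ℕ) : PrRel (code Γ) n (code [Fm.bot]) ↔ Proves Γ n Fm.bot := by
  constructor
  · rintro ⟨Γ', φ, e1, e2, h⟩
    have e3 : φ = Fm.bot := by simpa using (code_inj e2).symm
    rw [← code_inj e1, e3] at h
    exact h
  · intro h; exact ⟨Γ, Fm.bot, rfl, rfl, h⟩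

theorem sat_con (hP : Numerates P) (Γ : List Fml) (v : ℕ → ℕ) :
    Fm.Sat (Std P σ κ) (con P Γ) v ↔ ¬ Proves Γ (v 3) Fm.bot := by
  have h0 : ¬ (off P).Free 0 := fun h => by have := free_off hP h; omega
  have h1 : ¬ (off P).Free 1 := fun h => by have := free_off hP h; omega
  have e : con P Γ = inst 2 (code Γ) (off P) := rfl
  rw [e, sat_inst (qStd P σ κ) (by omega) h0 h1, nm_std, sat_off σ κ hP]
  have e3 : upd v 2 (code Γ) 2 = code Γ := upd_same ..
  have e4 : upd v 2 (code Γ) 3 = v 3 := upd_ne _ _ (by decide)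
  erw [e3, e4, prRel_iff]

theorem sat_conAll (hP : Numerates P) (Γ : List Fml) (v : ℕ → ℕ) :
    Fm.Sat (Std P σ κ) (conAll P Γ) v ↔ ∀ n, ¬ Proves Γ n Fm.bot := by
  rw [conAll, Fm.sat_all]
  refine forall_congr' fun n => ?_
  rw [sat_con σ κ hP]
  have e4 : upd v 3 n 3 = n := upd_same ..
  erw [e4]

end

end Pool.Agent.T9h88.IO
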