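import Pool.Agent.T9h88.IO.PP
import Pool.Agent.T9h88.IO.Sem

/-!
# Statements of the parts of the main argument
-/

set_option autoImplicit false

namespace Pool.Agent.T9h88.IO

open Pool.Agent.TH672 (Fm Str upd num digits varStr LogK Pv)
open Pool.Agent.TH636.BC
open Pool.Agent.T9h6.BC (sz cl sz_imp sz_all sz_pos)

/-- a context with the names of numbers and trees -/
structure CD where
  N : List At
  ν : Tree → ℕ
  M : ℕ
  K : ℕ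
  h : Ctx N ν M K

/-- the context as a formula -/
def CD.χ (d : CD) : Fml := ctx d.N

/-- the number of names -/
def CD.L (d : CD) : ℕ := d.N.length

/-- the atomic formula about the numbers `a`, `b` (with names) -/
def n2 (i a b : ℕ) : Fml := (o2 i (a + VB) (b + VB)).fm

/-- the same for three numbers -/
def n3 (i a b c : ℕ) : Fml := (o3 i (a + VB) (b + VB) (c + VB)).fm

variable {ι : Type}

/-- (A1) use of the axiom `al` -/
def AUse : Prop := ∀ {ι : Type} (Γ : ι → List Fml) (D : ι → CD) (A₀ : List Fml)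
  (P : Fml) (κ : ℕ) (v m : ι → ℕ),
  (∀ i, v i ≤ (D i).M) → (∀ i, m i ≤ (D i).M) → (∀ i, zz A₀ P κ (v i) (m i) ≤ (D i).M) →
  PP Γ (fun i => (D i).L) fun i => (D i).χ.imp ((al A₀ P κ (v i) (m i)).imp
    (n2 iTh (v i) (zz A₀ P κ (v i) (m i))))

/-- (A2) proof of the axiom `al` -/
def AIntro : Prop := ∀ {ι : Type} (Γ : ι → List Fml) (D : ι → CD) (A₀ : List Fml)
  (P : Fml) (κ : ℕ) (v m : ι → ℕ), (∀ i, ∀ ψ ∈ robinson, ψ ∈ Γ i) →
  (∀ i, v i ≤ (D i).M) → (∀ i, m i ≤ (D i).M) → (∀ i, zz A₀ P κ (v i) (m i) ≤ (D i).M) →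
  PP Γ (fun i => (D i).L) fun i => (D i).χ.imp ((n2 iTh (v i) (zz A₀ P κ (v i) (m i))).imp
    (al A₀ P κ (v i) (m i)))

/-- (A3) use of the axiom `link` -/
def ALink : Prop := ∀ {ι : Type} (Γ Δ : ι → List Fml) (D : ι → CD) (P : Fml) (n x : ι → ℕ),
  Numerates P → (∀ i, ∀ ψ ∈ robinson, ψ ∈ Γ i) → (∀ i, ∀ ψ ∈ ExAx, ψ ∈ Γ i) →
  (∀ i, link P ∈ Γ i) → (∀ i, code (Δ i) ≤ (D i).M) → (∀ i, n i ≤ (D i).M) →
  (∀ i, x i ≤ (D i).M) →
  PP Γ (fun i => (D i).L) (fun i => (D i).χ.imp (n2 iLe (code (Δ i)) (n i))) →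
  PP Γ (fun i => (D i).L) (fun i => (D i).χ.imp (n2 iLk (n i) (x i))) →
  PP Γ (fun i => (D i).L) (fun i => (D i).χ.imp (n2 iC (code (Δ i)) (x i))) →
  PP Γ (fun i => (D i).L) fun i => conAt P (Δ i) (n i)

/-- (A4) use of the axiom `Ax1` -/
def AAx1 : Prop := ∀ {ι : Type} (Γ : ι → List Fml) (D : ι → CD) (A₀ : List Fml)
  (P : Fml) (κ : ℕ) (v m : ι → ℕ),
  Numerates P → (∀ i, ∀ ψ ∈ robinson, ψ ∈ Γ i) → (∀ i, Ax1 P ∈ Γ i) →
  (∀ i, v i ≤ (D i).M) → (∀ i, m i ≤ (D i).M) → (∀ i, zz A₀ P κ (v i) (m i) ≤ (D i).M) →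
  (∀ i, code (Am A₀ P κ (v i) (m i)) ≤ (D i).M) →
  PP Γ (fun i => (D i).L) (fun i => (D i).χ.imp (n3 iD1 (v i) (m i) (zz A₀ P κ (v i) (m i)))) →
  PP Γ (fun i => (D i).L) (fun i => (D i).χ.imp
    (n2 iAf (zz A₀ P κ (v i) (m i)) (code (Am A₀ P κ (v i) (m i))))) →
  PP Γ (fun i => (D i).L) fun i => (D i).χ.imp
    ((n2 iTh (v i) (zz A₀ P κ (v i) (m i))).imp (conAll P (Am A₀ P κ (v i) (m i))))

/-- (A5) use of the axiom `Ax2` -/
def AAx2 : Prop := ∀ {ι : Type} (Γ : ι → List Fml) (D : ι → CD) (v z t r s y : ι → ℕ),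
  (∀ i, Ax2 ∈ Γ i) → (∀ i, v i ≤ (D i).M) → (∀ i, z i ≤ (D i).M) → (∀ i, t i ≤ (D i).M) →
  (∀ i, r i ≤ (D i).M) → (∀ i, s i ≤ (D i).M) → (∀ i, y i ≤ (D i).M) →
  PP Γ (fun i => (D i).L) (fun i => (D i).χ.imp (n2 iD2 (z i) (t i))) →
  PP Γ (fun i => (D i).L) (fun i => (D i).χ.imp (n2 iSS (r i) (s i))) →
  PP Γ (fun i => (D i).L) (fun i => (D i).χ.imp (n2 iSG (s i) (y i))) →
  PP Γ (fun i => (D i).L) (fun i => (D i).χ.imp (n2 iOk2 (t i) (r i))) →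
  PP Γ (fun i => (D i).L) (fun i => (D i).χ.imp (n2 iTh (v i) (z i)).neg) →
  PP Γ (fun i => (D i).L) fun i => (D i).χ.imp (n2 iC (v i) (y i))

end Pool.Agent.T9h88.IO
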