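import Pool.Agent.T9h88.IO.Asm

/-!
# Statements of the parts of the main argument, II
-/

set_option autoImplicit false

namespace Pool.Agent.T9h88.IO

open Pool.Agent.TH672 (Fm Str upd num digits varStr LogK Pv)
open Pool.Agent.TH636.BC
open Pool.Agent.T9h6.BC (sz cl sz_imp sz_all sz_pos)

/-- the property of the constant in `SScript` -/
def ScriptC (κ : ℕ) : Prop := ∀ (Γ π : List Fml), IsProof Γ (Fm.bot :: π) →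
  ∃ l : Tree, l.size ≤ κ * ((strs (Fm.bot :: π)).length + Γ.length) ^ 2 ∧ ¬ Ok0 (encL Γ) l

/-- the standard model of arithmetic -/
def NatStr : Str ℕ where
  M := ℕ
  ne := ⟨0⟩
  zero x := x = 0
  succ x y := y = x + 1
  add x y z := z = x + y
  mul x y z := z = x * y
  op _ _ _ _ _ := False

/-- true sentences of arithmetic -/
def TrueSent (A₀ : List Fml) : Prop :=
  ∀ ψ ∈ A₀, ψ.Closed ∧ Arith ψ ∧ ∀ v : ℕ → ℕ, Fm.Sat NatStr ψ v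

/-- (M1) the theory `U` is true in the standard model -/
def MTrue : Prop := VTree → VAll → VStr → VNum → ∀ (A₀ : List Fml) (P : Fml) (κ : ℕ),
  TrueSent A₀ → Numerates P → ScriptC κ → ∀ ψ ∈ U A₀ P (4 * κ), ∀ w : ℕ → ℕ,
  Fm.Sat (Std P (σ0 A₀ P (4 * κ)) (4 * κ)) ψ w

/-- (M2) brute force -/
def MBF : Prop := SRun → SAll → SStr → ∃ C, ∀ (P : Fml) (κ : ℕ) (Cs : List Cl) (N : List At)
  (ν : Tree → ℕ) (M K : ℕ), (∀ c ∈ clsB P κ, c ∈ Cs) → Ctx N ν M K → ∀ (Γ : List Fml) (n : ℕ),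
  NoRef (code Γ) n → code Γ ≤ M → n ≤ M → pb C (code Γ + n) ≤ K →
  Der Cs N N.length (o2 iC (code Γ) n)

/-- (G1) -/
def Grow1 : Prop := ∀ C₀ c C K D : ℕ, ∃ j₀, ∀ j ≥ j₀, ∃ m, j ≤ m ∧
  tw D (m ^ K) ≤ 2 ^ (tw j ((j + 1) * (j + 1)) / 4) ∧
  pb C (xs j + 2 + 4 ^ (pb C₀ (c + ys j) + 1)) ≤ tw (D + 1) m

/-- (G2) -/
def Grow2 : Prop := ∀ C₀ C K D : ℕ, ∃ j₀, ∀ j ≥ j₀, ∃ m, j ≤ m ∧
  tw D (m ^ K) ≤ 2 ^ (tw (j + 1) (j + 2) / 4) ∧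
  pb C (xs (j + 1) + 2 + 4 ^ (pb C₀ (2 * xs j) + 1)) ≤ tw (D + 1) m

/-- (G3) -/
def Grow3 : Prop := (∀ j ≥ 1, (2 ^ (tw j ((j + 1) * (j + 1)) / 4)) ^ 4 = xs j) ∧
  (∀ j ≥ 1, (2 ^ (tw j (j + 1) / 4)) ^ 4 = ys j) ∧
  (∀ j, j ≤ 2 ^ (tw j (j + 1) / 4)) ∧ (∀ j, tw j (j + 1) ≤ tw j ((j + 1) * (j + 1))) ∧
  (∀ j, ys j ≤ xs j) ∧ StrictMono xs ∧ (∀ i a, a ≤ tw i a) ∧
  (∀ i a b, a ≤ b → tw i a ≤ tw i b)

/-- (O) the clauses are admissible -/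
def MOk : Prop := ∀ (A₀ : List Fml) (P : Fml) (κ : ℕ), TrueSent A₀ →
  (∀ c ∈ clsB P κ ++ clsD (σ0 A₀ P κ), c.Ok) ∧
  (Numerates P → ∀ ψ ∈ U A₀ P κ, ψ.Closed) ∧
  (Numerates P → ∀ v m : ℕ, ∀ ψ ∈ Th P (Am A₀ P κ v m), ψ.Closed) ∧
  (Numerates P → ∀ Γ : List Fml, (conAll P Γ).Closed ∧ ∀ n, (conAt P Γ n).Closed)

end Pool.Agent.T9h88.IO
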