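import Pool.Agent.T9h88.IO.Spec
import Pool.Agent.T9h6.BC.Rel2

/-!
# Basic lemmas
-/

set_option autoImplicit false

namespace Pool.Agent.T9h88.IO

open Pool.Agent.TH672 (Fm Str upd num digits varStr LogK Pv)
open Pool.Agent.TH636.BC
open Pool.Agent.T9h6.BC (sz cl sz_imp sz_all sz_pos)
open Pool.Agent.TH838.J1549 (step_mono isProof_append pv_proof)

/-! ### polynomial bounds -/

theorem one_le_pb (C x : ℕ) : 1 ≤ pb C x := Nat.one_le_pow _ _ (by omega)

theorem pb_le {C D x y : ℕ} (hC : C ≤ D) (hx : x ≤ y) : pb C x ≤ pb D y :=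
  (Nat.pow_le_pow_left (by omega) C).trans (Nat.pow_le_pow_right (by omega) hC)

theorem le_pb {C : ℕ} (x : ℕ) (hC : 1 ≤ C) : x + 2 ≤ pb C x := by
  have := Nat.pow_le_pow_right (n := x + 2) (by omega) hC
  simpa [pb] using this

theorem const_le_pb (c x : ℕ) : c ≤ pb c x :=
  (Nat.lt_two_pow_self (n := c)).le.trans (Nat.pow_le_pow_left (by omega) c)

theorem pb_mul (C D x : ℕ) : pb C x * pb D x = pb (C + D) x := by
  simp only [pb, pow_add]

theorem pb_pow (C k x : ℕ) : pb C x ^ k = pb (C * k) x := by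
  simp only [pb, pow_mul]

theorem mul_pb (c C x : ℕ) : c * pb C x ≤ pb (c + C) x := by
  rw [← pb_mul]; exact Nat.mul_le_mul_right _ (const_le_pb c x)

theorem pb_add (C D x : ℕ) : pb C x + pb D x ≤ pb (C + D + 1) x := by
  have h1 := pb_le (C := C) (D := C + D) (Nat.le_add_right ..) (le_refl x)
  have h2 := pb_le (C := D) (D := C + D) (Nat.le_add_left ..) (le_refl x)
  have h3 : pb (C + D + 1) x = pb (C + D) x * (x + 2) := by simp only [pb, pow_succ]
  rw [h3]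
  nlinarith

/-- `pb C (pb D x) ≤ pb ((D + 2) * C) x` -/
theorem pb_comp (C D x : ℕ) : pb C (pb D x) ≤ pb ((D + 2) * C) x := by
  have h : pb D x + 2 ≤ pb (D + 2) x := by
    have h1 := one_le_pb D x
    have h3 : pb (D + 2) x = pb D x * ((x + 2) * (x + 2)) := by simp only [pb]; ring
    have h4 : 4 ≤ (x + 2) * (x + 2) := by nlinarith
    have h5 := Nat.mul_le_mul_left (pb D x) h4
    rw [h3]; omega
  calc pb C (pb D x) = (pb D x + 2) ^ C := rfl
    _ ≤ (pb (D + 2) x) ^ C := Nat.pow_le_pow_left h C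
    _ = _ := pb_pow ..

theorem poly_le_pb (C x : ℕ) : C * (x + 1) ^ C ≤ pb (2 * C) x := by
  have h1 : (x + 1) ^ C ≤ pb C x := Nat.pow_le_pow_left (by omega) C
  calc C * (x + 1) ^ C ≤ C * pb C x := Nat.mul_le_mul_left _ h1
    _ ≤ pb (C + C) x := mul_pb ..
    _ = _ := by rw [two_mul]

/-! ### proofs -/

theorem sz_eq_len (φ : Fml) : sz φ = (strs [φ]).length := by simp [sz, strs]

theorem sz_imp' (φ ψ : Fml) : sz (φ.imp ψ) = 4 + sz φ + sz ψ := sz_imp φ ψ

theorem strs_cons_len (φ : Fml) (Γ : List Fml) : (strs (φ :: Γ)).length = sz φ + (strs Γ).length := by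
  simp [sz, strs]

theorem strs_append_len (Γ Δ : List Fml) :
    (strs (Γ ++ Δ)).length = (strs Γ).length + (strs Δ).length := by
  simp [strs]

variable {Γ Δ : List Fml} {φ ψ χ α : Fml} {a b m n : ℕ}

theorem _root_.Pool.Agent.TH636.BC.Proves.sz (h : Proves Γ m φ) : sz φ ≤ m := by
  obtain ⟨π, _, h⟩ := h
  rw [strs_cons_len] at h; omega

theorem _root_.Pool.Agent.TH636.BC.Proves.mono (h : Proves Γ m φ) (hm : m ≤ n) : Proves Γ n φ := by
  obtain ⟨π, h1, h2⟩ := h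
  exact ⟨π, h1, h2.trans hm⟩

theorem isProof_weak (hΓ : ∀ ψ ∈ Γ, ψ ∈ Δ) : ∀ {π : List Fml}, IsProof Γ π → IsProof Δ π
  | [], _ => trivial
  | _ :: _, ⟨h1, h2⟩ => ⟨isProof_weak hΓ h1, h2.elim (fun h => .inl (hΓ _ h)) .inr⟩

theorem _root_.Pool.Agent.TH636.BC.Proves.weak (h : Proves Γ m φ) (hΓ : ∀ ψ ∈ Γ, ψ ∈ Δ) : Proves Δ m φ := by
  obtain ⟨π, h1, h2⟩ := h
  exact ⟨π, isProof_weak hΓ h1, h2⟩

theorem _root_.Pool.Agent.TH636.BC.Proves.ax (h : φ ∈ Γ) : Proves Γ (T9h6.BC.sz φ) φ :=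
  ⟨[], ⟨trivial, .inl h⟩, (sz_eq_len φ).ge⟩

theorem _root_.Pool.Agent.TH636.BC.Proves.log (h : LogK φ) : Proves Γ (T9h6.BC.sz φ) φ :=
  ⟨[], ⟨trivial, .inr (.inl h)⟩, (sz_eq_len φ).ge⟩

theorem _root_.Pool.Agent.TH636.BC.Proves.mp (h1 : Proves Γ a (φ.imp ψ)) (h2 : Proves Γ b φ) : Proves Γ (2 * a + b) ψ := by
  have h := h1.sz
  rw [sz_imp'] at h
  obtain ⟨π1, a1, a2⟩ := h1
  obtain ⟨π2, b1, b2⟩ := h2
  refine ⟨(φ.imp ψ :: π1) ++ (φ :: π2), ⟨isProof_append a1 b1,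
      .inr (.inr (.inl ⟨φ, by simp, by simp⟩))⟩, ?_⟩
  rw [strs_cons_len, strs_append_len]
  omega

theorem _root_.Pool.Agent.TH636.BC.Proves.gen (x : ℕ) (h : Proves Γ a φ) : Proves Γ (2 * a + x + 5) (.all x φ) := by
  have hs := h.sz
  obtain ⟨π, a1, a2⟩ := h
  refine ⟨φ :: π, ⟨a1, .inr (.inr (.inr ⟨φ, by simp, x, rfl⟩))⟩, ?_⟩
  rw [strs_cons_len, sz_all]
  omega

/-- from `φ` infer `χ → φ` -/
theorem _root_.Pool.Agent.TH636.BC.Proves.k (χ : Fml) (h : Proves Γ a φ) :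
    Proves Γ (5 * a + 2 * T9h6.BC.sz χ + 16) (χ.imp φ) := by
  have hs := h.sz
  refine (Proves.mp (Proves.log (LogK.k φ χ)) h).mono ?_
  rw [sz_imp', sz_imp']
  omega

/-- from `χ → φ → ψ` and `χ → φ` infer `χ → ψ` -/
theorem _root_.Pool.Agent.TH636.BC.Proves.s (h1 : Proves Γ a (χ.imp (φ.imp ψ))) (h2 : Proves Γ b (χ.imp φ)) :
    Proves Γ (20 * a + 9 * b + 40) (χ.imp ψ) := by
  have e1 := h1.sz
  have e2 := h2.sz
  refine (Proves.mp (Proves.mp (Proves.log (LogK.s χ φ ψ)) h1) h2).mono ?_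
  simp only [sz_imp'] at e1 e2 ⊢
  omega

theorem _root_.Pool.Agent.TH636.BC.Proves.rfl' (χ : Fml) : Proves Γ (200 * T9h6.BC.sz χ + 400) (χ.imp χ) := by
  have h1 : Proves Γ _ (χ.imp ((χ.imp χ).imp χ)) := Proves.log (LogK.k χ (χ.imp χ))
  have h2 : Proves Γ _ (χ.imp (χ.imp χ)) := Proves.log (LogK.k χ χ)
  have e := sz_pos χ
  refine (Proves.s h1 h2).mono ?_
  simp only [sz_imp']
  omega

/-- from `χ → φ` and `φ → ψ` infer `χ → ψ` -/
theorem _root_.Pool.Agent.TH636.BC.Proves.trans (h1 : Proves Γ a (χ.imp φ)) (h2 : Proves Γ b (φ.imp ψ)) :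
    Proves Γ (60 * a + 100 * b + 400) (χ.imp ψ) := by
  have e1 := h1.sz
  have e2 := h2.sz
  have h3 := Proves.k χ h2
  refine (Proves.s h3 h1).mono ?_
  simp only [sz_imp'] at e1 e2 ⊢
  omega

theorem sz_subst (x y : ℕ) : ∀ φ : Fml,
    T9h6.BC.sz (φ.subst x y) ≤ (y + 1) * T9h6.BC.sz φ := by
  have r : ∀ u, TH672.Form.ren x y u ≤ u + y := by
    intro u; unfold TH672.Form.ren; split_ifs <;> omega
  intro φ
  induction φ with
  | bot => simp only [Fm.subst, T9h6.BC.sz_bot]; nlinarith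
  | eq u v =>
    have := r u; have := r v
    simp only [Fm.subst, T9h6.BC.sz_eq]; nlinarith
  | zero u => have := r u; simp only [Fm.subst, T9h6.BC.sz_zero]; nlinarith
  | succ u v =>
    have := r u; have := r v
    simp only [Fm.subst, T9h6.BC.sz_succ]; nlinarith
  | add u v w =>
    have := r u; have := r v; have := r w
    simp only [Fm.subst, T9h6.BC.sz_add]; nlinarith
  | mul u v w =>
    have := r u; have := r v; have := r w
    simp only [Fm.subst, T9h6.BC.sz_mul]; nlinarith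
  | op i c d e f =>
    have := r c; have := r d; have := r e; have := r f
    simp only [Fm.subst, T9h6.BC.sz_op]; nlinarith
  | imp φ ψ ih1 ih2 => simp only [Fm.subst, sz_imp]; nlinarith
  | all u φ ih =>
    simp only [Fm.subst]
    split_ifs
    · nlinarith
    · simp only [sz_all]; nlinarith

/-- instances of universal statements -/
theorem _root_.Pool.Agent.TH636.BC.Proves.inst {x y : ℕ} (h : Proves Γ a (.all x φ)) (hf : φ.FreeFor y x) :
    Proves Γ (2 * (y + 3) * (a + 4)) (φ.subst x y) := by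
  have hs := h.sz
  have h2 := sz_subst x y φ
  refine (Proves.mp (Proves.log (LogK.inst x y φ hf)) h).mono ?_
  rw [sz_all] at hs
  rw [sz_imp', sz_all]
  nlinarith

/-- A proof from `Γ` gives a proof from `Δ` if all but one of the members of `Γ` belong to `Δ` and
the other one has a proof. -/
theorem _root_.Pool.Agent.TH636.BC.Proves.cut (hΓ : ∀ ψ ∈ Γ, ψ = α ∨ ψ ∈ Δ) (h1 : Proves Γ a φ) (h2 : Proves Δ b α) :
    Proves Δ (a + b) φ := by
  obtain ⟨π1, a1, a2⟩ := h1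
  obtain ⟨π2, b1, b2⟩ := h2
  have key : ∀ {π : List Fml}, IsProof Γ π → IsProof Δ (π ++ (α :: π2)) := by
    intro π
    induction π with
    | nil => exact fun _ => b1
    | cons ψ π ih =>
      rintro ⟨c1, c2⟩
      refine ⟨ih c1, ?_⟩
      rcases c2 with c2 | c2
      · rcases hΓ ψ c2 with rfl | c2
        · exact step_mono b1.2 fun χ hχ => by simp [hχ]
        · exact .inl c2
      · have : TH636.BC.Step Δ π ψ := .inr c2
        exact step_mono this fun χ hχ => by simp [hχ]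
  refine ⟨π1 ++ (α :: π2), key a1, ?_⟩
  rw [← List.cons_append, strs_append_len]
  omega

theorem _root_.Pool.Agent.TH636.BC.Proves.of_pv (h : Pv (fun ψ => ψ ∈ Γ) φ) : ∃ m, Proves Γ m φ := by
  obtain ⟨π, hπ⟩ := pv_proof h
  exact ⟨_, π, hπ, le_rfl⟩

/-- completeness -/
theorem _root_.Pool.Agent.TH636.BC.Proves.of_valid (hT : ∀ ψ ∈ Γ, ψ.Closed)
    (h : ∀ (S : Str ℕ), (∀ ψ ∈ Γ, ∀ v : ℕ → S.M, Fm.Sat S ψ v) → ∀ v : ℕ → S.M, Fm.Sat S φ v) :
    ∃ m, Proves Γ m φ := Proves.of_pv (T9h6.BC.pv_of_valid hT h)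

/-! ### the interpretation of the symbols with parameters -/

theorem I_big {P : Fml} {σ : List Bool} {κ i c d e f : ℕ} (h : 100 ≤ i) :
    I P σ κ i c d e f ↔
      if i % 2 = 0 then d = app c (digits ((i - 100) / 2)) else c = (i - 101) / 2 := by
  obtain ⟨j, rfl⟩ := Nat.exists_eq_add_of_le' h
  unfold I
  exact Iff.rfl

theorem I_app (P : Fml) (σ : List Bool) (κ : ℕ) (τ : List Bool) (c d e f : ℕ) :
    I P σ κ (iApp τ) c d e f ↔ d = app c τ := by
  rw [I_big (by unfold iApp; omega), if_pos (by unfold iApp; omega)]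
  have : (iApp τ - 100) / 2 = num τ := by unfold iApp; omega
  rw [this, TH197.J1545.digits_num]

theorem I_K (P : Fml) (σ : List Bool) (κ : ℕ) (k c d e f : ℕ) :
    I P σ κ (iK k) c d e f ↔ c = k := by
  rw [I_big (by unfold iK; omega), if_neg (by unfold iK; omega)]
  have : (iK k - 101) / 2 = k := by unfold iK; omega
  rw [this]

/-! ### derivability -/

theorem Der.mono {Cs Cs' : List Cl} {N N' : List At} {M M' : ℕ} {q : At} (hC : ∀ c ∈ Cs, c ∈ Cs')
    (hN : ∀ p ∈ N, p ∈ N') (hM : M ≤ M') (h : Der Cs N M q) : Der Cs' N' M' q := by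
  induction h with
  | base h => exact .base (hN _ h)
  | step ρ hc hρ _ ih => exact .step ρ (hC _ hc) (fun x => (hρ x).trans_le hM) ih

/-- a step with the variables `0`, `1`, ..., for the names in the list; the others are `d` -/
def as (d : ℕ) (l : List ℕ) (x : ℕ) : ℕ := l.getD x d

theorem as_lt {d M : ℕ} {l : List ℕ} (hd : d < M) (hl : ∀ y ∈ l, y < M) (x : ℕ) : as d l x < M := by
  unfold as
  by_cases h : x < l.length
  · rw [List.getD_eq_getElem _ _ h]; exact hl _ (List.getElem_mem h)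
  · rw [List.getD_eq_default _ _ (by omega)]; exact hd

/-- `Der.step` with a list of names -/
theorem Der.step' {Cs : List Cl} {N : List At} {M : ℕ} (c : Cl) (d : ℕ) (l : List ℕ)
    (hc : c ∈ Cs) (hd : d < M) (hl : ∀ y ∈ l, y < M)
    (h : ∀ p ∈ c.prem, Der Cs N M (p.ren (as d l))) : Der Cs N M (c.concl.ren (as d l)) :=
  .step _ hc (as_lt hd hl) h

end Pool.Agent.T9h88.IO
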