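import Pool.Agent.T9h88.IO.Asm2

/-!
# Facts in the theories; the first case
-/

set_option autoImplicit false

namespace Pool.Agent.T9h88.IO

open Pool.Agent.TH672 (Fm Str upd num digits varStr LogK Pv)
open Pool.Agent.TH636.BC
open Pool.Agent.T9h6.BC (sz cl sz_imp sz_all sz_pos)
open Pool.Agent.TH197.J1545 (sat_proves code_inj)

attribute [local irreducible] Pool.Agent.TH636.BC.inst Pool.Agent.TH636.BC.code

variable {ι : Type} {Γ : ι → List Fml} {D : ι → CD}

theorem SP.poly {f : ι → ℕ} {φ : ι → Fml} (c k : ℕ) (h : ∀ i, sz (φ i) ≤ c * (f i + 1) ^ k) :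
    SP f φ := by
  refine ⟨c + k, fun i => (h i).trans ?_⟩
  refine (Nat.mul_le_mul_left c ?_).trans (mul_pb c k (f i))
  exact Nat.pow_le_pow_left (by omega) k

theorem sp_χ (hN : SNames) : SP (fun i => (D i).L) fun i => (D i).χ :=
  SP.poly 1000 2 fun i => (hN.2 _ (D i).h.good).2.1

theorem free_χ (hN : SNames) (d : CD) {x : ℕ} (hx : x < VB) : ¬ d.χ.Free x :=
  (hN.2 _ d.h.good).2.2 x hx

/-- facts -/
theorem PP.der' (hE : SEngine) (hN : SNames) {Cs : List Cl} (hOk : ∀ c ∈ Cs, c.Ok)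
    (hΓ : ∀ i, ∀ c ∈ Cs, c.fm ∈ Γ i) (E : ι → List At) (hEl : ∀ i, ∀ a ∈ E i, a.lt (D i).L)
    (hEs : SP (fun i => (D i).L) fun i => ctx (E i ++ (D i).N)) (q : ι → At)
    (h : ∀ i, Der Cs (E i ++ (D i).N) (D i).L (q i)) :
    PP Γ (fun i => (D i).L) fun i => (ctx (E i ++ (D i).N)).imp ((q i).ren (· + VB)).fm := by
  obtain ⟨C, hC⟩ := hE Cs hOk
  obtain ⟨B, hB⟩ := hEs
  refine ⟨(B + 1 + 2 + 2) * C, fun i => ?_⟩
  have hlt : ∀ a ∈ E i ++ (D i).N, a.lt (D i).L := by
    intro a ha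
    rcases List.mem_append.1 ha with ha | ha
    · exact hEl i a ha
    · exact (hN.2 _ (D i).h.good).1 a ha
  refine (hC (Γ i) (E i ++ (D i).N) (D i).L (q i) (hΓ i) hlt (h i)).mono ?_
  refine le_trans (pb_le le_rfl ?_) (pb_comp C (B + 1 + 2) (D i).L)
  have h1 := hB i
  have h2 := le_pb (C := 1) (D i).L le_rfl
  have h3 := pb_add B 1 (D i).L
  have h4 : pb (B + 1 + 1) (D i).L ≤ pb (B + 1 + 2) (D i).L := pb_le (by omega) le_rfl
  simp only at h1
  omega

theorem PP.der (hE : SEngine) (hN : SNames) {Cs : List Cl} (hOk : ∀ c ∈ Cs, c.Ok)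
    (hΓ : ∀ i, ∀ c ∈ Cs, c.fm ∈ Γ i) (q : ι → At)
    (h : ∀ i, Der Cs (D i).N (D i).N.length (q i)) :
    PP Γ (fun i => (D i).L) fun i => (D i).χ.imp ((q i).ren (· + VB)).fm :=
  PP.der' (D := D) hE hN hOk hΓ (fun _ => []) (by simp) (sp_χ hN) q h

theorem PP.refl {f : ι → ℕ} {χ : ι → Fml} (h : SP f χ) : PP Γ f fun i => (χ i).imp (χ i) := by
  refine PP.taut (.imp (T9h6.BC.pp 0) (T9h6.BC.pp 0)) ?_ h h h h fun _ _ => rfl
  intro S v; simp only [Fm.sat_imp]; exact id

/-- facts from one more fact -/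
theorem PP.der1 (hE : SEngine) (hN : SNames) {Cs : List Cl} (hOk : ∀ c ∈ Cs, c.Ok)
    (hΓ : ∀ i, ∀ c ∈ Cs, c.fm ∈ Γ i) (a q : ι → At) (ha : ∀ i, (a i).lt (D i).L)
    (h1 : PP Γ (fun i => (D i).L) fun i => (D i).χ.imp ((a i).ren (· + VB)).fm)
    (h : ∀ i, Der Cs (a i :: (D i).N) (D i).N.length (q i)) :
    PP Γ (fun i => (D i).L) fun i => (D i).χ.imp ((q i).ren (· + VB)).fm := by
  have hs : SP (fun i => (D i).L) fun i => ctx ([a i] ++ (D i).N) := h1.sp.right.and (sp_χ hN)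
  have h2 := PP.der' (D := D) hE hN hOk hΓ (fun i => [a i]) (by
    intro i b hb
    rw [List.mem_singleton.1 hb]; exact ha i) hs q h
  have h3 : PP Γ (fun i => (D i).L) fun i => ((a i).ren (· + VB)).fm.imp
      ((D i).χ.imp ((q i).ren (· + VB)).fm) :=
    PP.exp (α := fun i => ((a i).ren (· + VB)).fm) (β := fun i => (D i).χ) h2 h1.sp.right (sp_χ hN)
  exact (h1.trans h3).s (PP.refl (sp_χ hN))

theorem ren_fm2 (i a b : ℕ) : ((o2 i a b).ren (· + VB)).fm = n2 i a b := rfl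

theorem ren_fm3 (i a b c : ℕ) : ((o3 i a b c).ren (· + VB)).fm = n3 i a b c := rfl

/-- consistent theories have no refutations -/
theorem noRef_of_cons (hSP : SProof) {Δ : List Fml} (h : ∀ k, ¬ Proves Δ k Fm.bot) (n : ℕ) :
    NoRef (code Δ) n := by
  intro Γ hΓ l _
  by_contra hl
  obtain ⟨C, hC⟩ := hSP
  rw [code_inj hΓ] at hl
  exact h _ (hC Δ l hl)

theorem not_prRel {Δ : List Fml} {n : ℕ} (h : ¬ Proves Δ n Fm.bot) :
    ¬ PrRel (code Δ) n (code [Fm.bot]) := fun h' => h ((prRel_iff Δ n).1 h')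

/-- the parts of the proof -/
structure Parts (A₀ : List Fml) (P : Fml) (κ : ℕ) : Prop where
  num : Numerates P
  tru : TrueSent A₀
  ded : SDed
  eng : SEngine
  elim : SElim
  names : SNames
  run : SRun
  all : SAll
  str : SStr
  nums : SNum
  proof : SProof
  script : SScript
  bf : MBF
  use : AUse
  intro' : AIntro
  lnk : ALink
  ax1 : AAx1
  ax2 : AAx2
  g1 : Grow1
  g2 : Grow2
  g3 : Grow3
  ok : MOk
  uTrue : ∀ ψ ∈ U A₀ P κ, ∀ w : ℕ → ℕ, Fm.Sat (Std P (σ0 A₀ P κ) κ) ψ w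

variable {A₀ : List Fml} {P : Fml} {κ : ℕ}

theorem Parts.cons_U (h : Parts A₀ P κ) : ∀ k, ¬ Proves (U A₀ P κ) k Fm.bot := fun k hk =>
  sat_proves (S := Std P (σ0 A₀ P κ) κ) h.uTrue hk fun _ => (0 : ℕ)

theorem Parts.cons_V (h : Parts A₀ P κ) : ∀ k, ¬ Proves (Th P (U A₀ P κ)) k Fm.bot := by
  intro k hk
  have key : ∀ ψ ∈ Th P (U A₀ P κ), ∀ w : ℕ → ℕ, Fm.Sat (Std P (σ0 A₀ P κ) κ) ψ w := by
    intro ψ hψ w
    have h1 : ψ = conAll P (U A₀ P κ) ∨ ψ ∈ U A₀ P κ := List.mem_cons.1 hψ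
    rcases h1 with h1 | h1
    · rw [h1]
      exact (sat_conAll (σ0 A₀ P κ) κ h.num (U A₀ P κ) w).2 h.cons_U
    · exact h.uTrue ψ h1 w
  exact sat_proves (S := Std P (σ0 A₀ P κ) κ) key hk fun _ => (0 : ℕ)

/-- the code of the theory `U + Con_U` -/
def vv (A₀ : List Fml) (P : Fml) (κ : ℕ) : ℕ := code (Th P (U A₀ P κ))

theorem mem_Am {v m : ℕ} {ψ : Fml} (h : ψ ∈ B A₀ P κ) : ψ ∈ Am A₀ P κ v m :=
  List.mem_cons_of_mem _ h

theorem rob_B {ψ : Fml} (h : ψ ∈ robinson) : ψ ∈ B A₀ P κ := by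
  simp only [B, List.mem_append]; exact .inr (.inl (.inl h))

theorem ex_B {ψ : Fml} (h : ψ ∈ ExAx) : ψ ∈ B A₀ P κ := by
  simp only [B, List.mem_append]; exact .inr (.inl (.inr h))

theorem link_B : link P ∈ B A₀ P κ :=
  List.mem_append_right _ (List.mem_append_right _ (List.mem_cons_self ..))

theorem cls_B {c : Cl} (h : c ∈ clsB P κ) : c.fm ∈ B A₀ P κ := by
  simp only [B, List.mem_append, List.mem_cons]
  exact .inr (.inr (.inr (List.mem_map_of_mem h)))

theorem A0_B {ψ : Fml} (h : ψ ∈ A₀) : ψ ∈ B A₀ P κ := List.mem_append_left _ h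

theorem ax_al (A₀ : List Fml) (P : Fml) (κ v m : ℕ) : al A₀ P κ v m ∈ Am A₀ P κ v m := List.mem_cons_self ..

theorem le_num_append (σ τ : List Bool) : num τ ≤ num (σ ++ τ) := by
  induction τ using List.reverseRecOn with
  | nil => exact Nat.zero_le _
  | append_singleton τ b ih =>
    rw [← List.append_assoc]
    simp only [num, List.foldl_append, List.foldl_cons, List.foldl_nil] at ih ⊢
    omega

theorem num_app_left (σ τ : List Bool) : num σ ≤ num (σ ++ τ) := by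
  induction τ using List.reverseRecOn with
  | nil => simp
  | append_singleton τ b ih =>
    rw [← List.append_assoc]
    simp only [num, List.foldl_append, List.foldl_cons, List.foldl_nil] at ih ⊢
    omega

theorem num_digits (n : ℕ) : num (digits n) = n := by
  induction n using Nat.strong_induction_on with
  | _ n ih =>
    rw [digits]
    split_ifs with h
    · rw [h]; rfl
    · have h1 := ih ((n - 1) / 2) (by omega)
      simp only [num, List.foldl_append, List.foldl_cons, List.foldl_nil] at h1 ⊢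
      rw [h1]
      rcases Nat.even_or_odd n with hn | hn
      · obtain ⟨k, hk⟩ := hn
        rw [if_pos (by simp; omega)]; omega
      · obtain ⟨k, hk⟩ := hn
        rw [if_neg (by simp; omega)]; omega

theorem length_le_num (w : List Bool) : w.length ≤ num w := by
  induction w using List.reverseRecOn with
  | nil => exact Nat.zero_le _
  | append_singleton τ b ih =>
    simp only [num, List.foldl_append, List.foldl_cons, List.foldl_nil, List.length_append,
      List.length_cons, List.length_nil] at ih ⊢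
    split_ifs <;> omega

theorem fA_le_fT (P : Fml) (z : ℕ) : fA z ≤ fT P z := by
  have h := le_num_append (s1 ++ rep (fA z) ++ s2 P) (digits (fA z))
  rw [num_digits] at h
  exact h

theorem le_fA (z : ℕ) : z ≤ fA z := by
  have h := le_num_append (hd ++ rep z ++ tlx 29) (digits z)
  rw [num_digits] at h
  exact h

theorem rep_len (n : ℕ) : n ≤ (rep n).length := by
  induction n with
  | zero => exact Nat.zero_le _
  | succ n ih =>
    have h1 : rep (n + 1) = bs ++ rep n := by simp [rep, List.replicate_succ]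
    have h2 : 1 ≤ bs.length := by simp [bs]
    rw [h1, List.length_append]; omega

theorem le_fZ (σ : List Bool) (v m : ℕ) : m ≤ fZ σ v m := by
  have h := length_le_num (hd ++ rep m ++ tlx 28 ++ hd ++ rep v ++ tlx 27 ++ σ)
  have h2 := rep_len m
  simp only [List.length_append] at h
  unfold fZ
  omega

theorem le_fZ' (σ : List Bool) (v m : ℕ) : v ≤ fZ σ v m := by
  have h := length_le_num (hd ++ rep m ++ tlx 28 ++ hd ++ rep v ++ tlx 27 ++ σ)
  have h2 := rep_len v
  simp only [List.length_append] at h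
  unfold fZ
  omega

/-- small numbers -/
theorem conAt_small (hP : Numerates P) {Δ : List Fml} (hΔ : ∀ n, (conAt P Δ n).Closed)
    (h : ∀ k, ¬ Proves Δ k Fm.bot) (n : ℕ) : ∃ k, Proves robinson k (conAt P Δ n) := by
  obtain ⟨k, hk⟩ := hP.neg _ _ _ (not_prRel (h n))
  have hfn : ∀ x, P.neg.Free x → x = 2 ∨ x = 3 ∨ x = 4 := fun x hx => by
    simp only [Fm.neg, Fm.Free, or_false] at hx
    exact hP.free x hx
  refine Proves.of_valid TH838.J1549.closed_robinson fun S hS v => ?_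
  obtain ⟨q⟩ := TH838.J1549.exists_Q (S := S) v fun ψ hψ => hS ψ hψ v
  have h1 := sat_proves (S := S) hS hk v
  rw [TH838.J1549.sat_inst3 q hfn] at h1
  have f0 : ¬ (off P).Free 0 := fun h => by have := free_off hP h; omega
  have f1 : ¬ (off P).Free 1 := fun h => by have := free_off hP h; omega
  have g0 : ¬ P.neg.Free 0 := fun h => by have := hfn 0 h; omega
  have g1 : ¬ P.neg.Free 1 := fun h => by have := hfn 1 h; omega
  have e : conAt P Δ n = inst 3 n (inst 2 (code Δ) (off P)) := rfl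
  rw [e, TH838.J1549.sat_inst q (by omega)
    (fun h => (TH838.J1549.free_inst h).1 rfl)
    (fun h => f1 (TH838.J1549.free_inst h).2.2),
    TH838.J1549.sat_inst q (by omega) f0 f1, off, TH838.J1549.sat_inst q (by omega) g0 g1]
  rwa [TH672.upd_comm _ _ _ (show (3 : ℕ) ≠ 2 by decide)]

theorem conAt_small' (hP : Numerates P) {Δ A : List Fml} (hΔ : ∀ n, (conAt P Δ n).Closed)
    (h : ∀ k, ¬ Proves Δ k Fm.bot) (hA : ∀ ψ ∈ robinson, ψ ∈ A) (t : ℕ) :
    ∃ c, ∀ n < t, Proves A c (conAt P Δ n) := by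
  induction t with
  | zero => exact ⟨0, fun n hn => absurd hn (Nat.not_lt_zero _)⟩
  | succ t ih =>
    obtain ⟨c, hc⟩ := ih
    obtain ⟨k, hk⟩ := conAt_small hP hΔ h t
    refine ⟨max c k, fun n hn => ?_⟩
    rcases Nat.lt_succ_iff_lt_or_eq.1 hn with hn | rfl
    · exact (hc n hn).mono (le_max_left _ _)
    · exact (hk.weak hA).mono (le_max_right _ _)

/-- The first case. -/
theorem Parts.case1 (h : Parts A₀ P κ) (m : ℕ)
    (hT : ∀ k, ¬ Proves (Th P (Am A₀ P κ (vv A₀ P κ) m)) k Fm.bot) (E K N : ℕ) :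
    ∃ μ ≥ N, ∀ n ≤ tw E (μ ^ K), Proves (Am A₀ P κ (vv A₀ P κ) m) (tw (E + 1) μ)
      (conAt P (Th P (Am A₀ P κ (vv A₀ P κ) m)) n) := by
  obtain ⟨C₀, hBF⟩ := h.bf h.run h.all h.str
  obtain ⟨w1, w2, w3, w4, w5, w6, w7, w8⟩ := h.g3
  set v := vv A₀ P κ with hv
  set A := Am A₀ P κ v m with hA
  set z := zz A₀ P κ v m with hz
  set t := fT P z with ht
  have hct : code (Th P A) = t := code_ThAm A₀ P κ v m
  let nn : ℕ → ℕ := fun j => 2 ^ (tw j ((j + 1) * (j + 1)) / 4)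
  have hnj : ∀ j, j ≤ nn j := fun j =>
    (w3 j).trans (Nat.pow_le_pow_right (by norm_num) (Nat.div_le_div_right (w4 j)))
  -- the parameters
  let ι := {p : ℕ × ℕ // t + v + m + κ + 1 ≤ p.1 ∧ t ≤ p.2 ∧ p.2 ≤ nn p.1}
  have hbig : ∀ i : ι, t + v + m + κ + 1 ≤ nn i.1.1 := fun i => i.2.1.trans (hnj _)
  have hpow : ∀ i : ι, nn i.1.1 ^ 4 = xs i.1.1 := fun i => w1 _ (by have := i.2.1; omega)
  have hM : ∀ i : ι, nn i.1.1 ≤ xs i.1.1 := fun i => by
    rw [← hpow i]
    exact Nat.le_self_pow (by norm_num) _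
  have hzt : z ≤ t := (le_fA z).trans (fA_le_fT P z)
  let D : ι → CD := fun i =>
    ⟨(h.names.1 (xs i.1.1) (pb C₀ (v + ys i.1.1))).choose,
     (h.names.1 (xs i.1.1) (pb C₀ (v + ys i.1.1))).choose_spec.choose, _, _,
     (h.names.1 (xs i.1.1) (pb C₀ (v + ys i.1.1))).choose_spec.choose_spec⟩
  have hDM : ∀ i, (D i).M = xs i.1.1 := fun _ => rfl
  have hDK : ∀ i, (D i).K = pb C₀ (v + ys i.1.1) := fun _ => rfl
  have bt : ∀ i, t ≤ (D i).M := fun i => by
    have := hbig i; have := hM i; rw [hDM]; omega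
  have bv : ∀ i, v ≤ (D i).M := fun i => by
    have := hbig i; have := hM i; rw [hDM]; omega
  have bm : ∀ i, m ≤ (D i).M := fun i => by
    have := hbig i; have := hM i; rw [hDM]; omega
  have bn : ∀ i : ι, i.1.2 ≤ (D i).M := fun i => by
    rw [hDM]; exact i.2.2.2.trans (hM i)
  have by' : ∀ i : ι, ys i.1.1 ≤ (D i).M := fun i => by
    rw [hDM]; exact w5 _
  have hcl : ∀ c ∈ clsB P κ, c ∈ clsB P κ := fun _ hc => hc
  have hOk : ∀ c ∈ clsB P κ, c.Ok := fun c hc =>
    (h.ok A₀ P κ h.tru).1 c (List.mem_append_left _ hc)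
  have hΓ : ∀ _ : ι, ∀ c ∈ clsB P κ, c.fm ∈ A := fun _ c hc => mem_Am (cls_B hc)
  have nums := fun i => h.nums h.str P κ (clsB P κ) (D i).N (D i).ν (D i).M (D i).K hcl (D i).h
  -- facts
  have f1 : ∀ i, Der (clsB P κ) (D i).N (D i).N.length (o2 iD2 z t) := fun i =>
    (nums i).2.1 z (bt i)
  have f2 : ∀ i : ι, Der (clsB P κ) (D i).N (D i).N.length
      (o2 iSG (xs i.1.1) (ys i.1.1)) := fun i => (nums i).2.2.2.1 i.1.1 le_rfl
  have f3 : ∀ i : ι, Der (clsB P κ) (D i).N (D i).N.length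
      (o2 iLe t (xs i.1.1)) := fun i =>
    (nums i).2.2.2.2.2.2.1 _ _ (bt i) le_rfl
  have f4 : ∀ i : ι, Der (clsB P κ) (D i).N (D i).N.length (o2 iC v (ys i.1.1)) := fun i =>
    hBF P κ (clsB P κ) (D i).N (D i).ν (D i).M (D i).K hcl (D i).h (Th P (U A₀ P κ)) (ys i.1.1)
      (noRef_of_cons h.proof h.cons_V _) (bv i) (by' i) le_rfl
  have f5 : ∀ i : ι, Der (clsB P κ) (D i).N (D i).N.length
      (o2 iLk i.1.2 (xs i.1.1)) := fun i => by
    have := (nums i).2.2.2.2.2.2.2 i.1.2 (nn i.1.1) (by have := hbig i; omega) i.2.2.2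
      (hpow i).le
    rwa [hpow i] at this
  have f6 : ∀ i : ι, Der (clsB P κ) (D i).N (D i).N.length
      (o2 iLe t i.1.2) := fun i =>
    (nums i).2.2.2.2.2.2.1 _ _ i.2.2.1 (bn i)
  -- the axiom
  have g0 : PP (fun _ : ι => A) (fun i => (D i).L) fun i => (D i).χ.imp (n2 iTh v z) := by
    have u1 := h.use (fun _ : ι => A) D A₀ P κ (fun _ => v) (fun _ => m) bv bm
      (fun i => hzt.trans (bt i))
    have u2 : PP (fun _ : ι => A) (fun i => (D i).L) fun _ => al A₀ P κ v m :=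
      PP.const (Γ₀ := A) (Proves.ax (ax_al A₀ P κ v m)) fun _ _ hψ => hψ
    exact u1.s (u2.k (sp_χ h.names))
  have hlt : ∀ i a, a ≤ (D i).M → a < (D i).L := fun i a ha => ha.trans_lt (D i).h.numlt
  have g1 : PP (fun _ : ι => A) (fun i => (D i).L) fun i => (D i).χ.imp
      (n2 iC t (xs i.1.1)) := by
    refine PP.der1 h.eng h.names hOk hΓ (fun _ => o2 iTh v z) (fun i => o2 iC t _)
      (fun i => ⟨hlt i _ (bv i), hlt i _ (hzt.trans (bt i)), hlt i _ (hzt.trans (bt i)),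
        hlt i _ (hzt.trans (bt i))⟩) g0 fun i => ?_
    have hm : (⟨[o2 iTh 0 1, o2 iD2 1 2, o2 iSG 3 4, o2 iLe 2 3, o2 iC 0 4], o2 iC 2 3⟩ : Cl) ∈
        clsB P κ := by simp [clsB, clTh]
    have e := Der.step' (N := o2 iTh v z :: (D i).N) (M := (D i).N.length) _ 0
      [v, z, t, xs i.1.1, ys i.1.1] hm (Nat.zero_lt_of_lt (D i).h.numlt) (by
        intro y hy
        simp only [List.mem_cons, List.not_mem_nil, or_false] at hy
        rcases hy with rfl | rfl | rfl | rfl | rfl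
        · exact hlt i _ (bv i)
        · exact hlt i _ (hzt.trans (bt i))
        · exact hlt i _ (bt i)
        · exact hlt i _ le_rfl
        · exact hlt i _ (by' i)) (by
        intro p hp
        have mo : ∀ {q : At}, Der (clsB P κ) (D i).N (D i).N.length q →
            Der (clsB P κ) (o2 iTh v z :: (D i).N) (D i).N.length q := fun hq =>
          hq.mono (fun _ hc => hc) (fun _ ha => List.mem_cons_of_mem _ ha) le_rfl
        simp only [List.mem_cons, List.not_mem_nil, or_false] at hp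
        rcases hp with rfl | rfl | rfl | rfl | rfl
        · exact .base (List.mem_cons_self ..)
        · exact mo (f1 i)
        · exact mo (f2 i)
        · exact mo (f3 i)
        · exact mo (f4 i))
    exact e
  have g5 : PP (fun _ : ι => A) (fun i => (D i).L) fun i => (D i).χ.imp
      (n2 iLk i.1.2 (xs i.1.1)) :=
    PP.der h.eng h.names hOk hΓ _ f5
  have g6 : PP (fun _ : ι => A) (fun i => (D i).L) fun i => (D i).χ.imp
      (n2 iLe t i.1.2) :=
    PP.der h.eng h.names hOk hΓ _ f6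
  have fin := h.lnk (fun _ : ι => A) (fun _ => Th P A) D P (fun i => i.1.2)
    (fun i => xs i.1.1) h.num (fun _ _ hψ => mem_Am (rob_B hψ))
    (fun _ _ hψ => mem_Am (ex_B hψ)) (fun _ => mem_Am link_B) (fun i => by rw [hct]; exact bt i)
    bn (fun _ => le_rfl) (by rw [hct]; exact g6) g5 (by rw [hct]; exact g1)
  obtain ⟨C, hC⟩ := fin
  obtain ⟨c₁, hc₁⟩ := conAt_small' h.num ((h.ok A₀ P κ h.tru).2.2.2 h.num (Th P A)).2 hT
    (fun _ hψ => mem_Am (v := v) (m := m) (rob_B hψ)) t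
  obtain ⟨j₀, hj⟩ := h.g1 C₀ v C K E
  let j := j₀ + (t + v + m + κ + 1) + c₁ + N
  obtain ⟨μ, h0, h1, h2⟩ := hj j (by omega)
  refine ⟨μ, by omega, fun n hn => ?_⟩
  by_cases hnt : n < t
  · refine (hc₁ n hnt).mono ?_
    have := w7 (E + 1) μ
    omega
  · let i₀ : ι := ⟨(j, n), by omega, by omega, hn.trans h1⟩
    exact (hC i₀).mono ((pb_le le_rfl (D i₀).h.len).trans h2)

end Pool.Agent.T9h88.IO
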