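import Pool.Agent.T9h88.IO.Case1

/-!
# The second case
-/

set_option autoImplicit false

namespace Pool.Agent.T9h88.IO

open Pool.Agent.TH672 (Fm Str upd num digits varStr LogK Pv)
open Pool.Agent.TH636.BC
open Pool.Agent.T9h6.BC (sz cl sz_imp sz_all sz_pos)
open Pool.Agent.TH197.J1545 (sat_proves code_inj)

attribute [local irreducible] Pool.Agent.TH636.BC.inst Pool.Agent.TH636.BC.code

variable {A₀ : List Fml} {P : Fml} {κ : ℕ}

theorem cls_U {c : Cl} (h : c ∈ clsB P κ ++ clsD (σ0 A₀ P κ)) : c.fm ∈ U A₀ P κ := by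
  rcases List.mem_append.1 h with h | h
  · exact List.mem_cons_of_mem _ (List.mem_cons_of_mem _ (List.mem_append_right _ (cls_B h)))
  · exact List.mem_cons_of_mem _ (List.mem_cons_of_mem _ (List.mem_append_left _
      (List.mem_map_of_mem h)))

theorem B_U {ψ : Fml} (h : ψ ∈ B A₀ P κ) : ψ ∈ U A₀ P κ :=
  List.mem_cons_of_mem _ (List.mem_cons_of_mem _ (List.mem_append_right _ h))

theorem ax1_U : Ax1 P ∈ U A₀ P κ := List.mem_cons_self ..

theorem ax2_U : Ax2 ∈ U A₀ P κ := List.mem_cons_of_mem _ (List.mem_cons_self ..)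

theorem strs_le_code (Γ : List Fml) : (strs Γ).length ≤ code Γ := by
  unfold code; exact length_le_num _

theorem sz_le_strs {φ : Fml} {Γ : List Fml} (h : φ ∈ Γ) : sz φ ≤ (strs Γ).length := by
  induction Γ with
  | nil => cases h
  | cons ψ Γ ih =>
    rw [strs_cons_len]
    rcases List.mem_cons.1 h with h | h
    · rw [h]; omega
    · have := ih h; omega

/-- The second case. -/
theorem Parts.case2 (h : Parts A₀ P κ)
    (hT : ∀ m, ∃ k, Proves (Th P (Am A₀ P κ (vv A₀ P κ) m)) k Fm.bot) (E K N : ℕ) :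
    ∃ μ ≥ N, ∀ n ≤ tw E (μ ^ K), Proves (U A₀ P κ) (tw (E + 1) μ)
      (conAt P (Th P (U A₀ P κ)) n) := by
  obtain ⟨C₀, hBF⟩ := h.bf h.run h.all h.str
  obtain ⟨w1, w2, w3, w4, w5, w6, w7, w8⟩ := h.g3
  set v := vv A₀ P κ with hv
  have hcv : code (Th P (U A₀ P κ)) = v := rfl
  -- refutations
  have hr : ∀ m, ∃ r, ∃ l : Tree, l.size ≤ r ∧ ¬ Ok0 (encL (Th P (Am A₀ P κ v m))) l := by
    intro m
    obtain ⟨κ', hs⟩ := h.script
    obtain ⟨k, π, h1, _⟩ := hT m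
    obtain ⟨l, _, h2⟩ := hs _ π h1
    exact ⟨l.size, l, le_rfl, h2⟩
  classical
  let r : ℕ → ℕ := fun m => Nat.find (hr m)
  have r1 : ∀ m, ∃ l : Tree, l.size ≤ r m ∧ ¬ Ok0 (encL (Th P (Am A₀ P κ v m))) l := fun m =>
    Nat.find_spec (hr m)
  have r2 : ∀ m n, n < r m → NoRef (fT P (zz A₀ P κ v m)) n := by
    intro m n hn Γ hΓ l hl
    rw [← code_ThAm] at hΓ
    rw [code_inj hΓ]
    by_contra hl'
    exact Nat.find_min (hr m) hn ⟨l, hl, hl'⟩
  let z : ℕ → ℕ := fun m => zz A₀ P κ v m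
  let t : ℕ → ℕ := fun m => fT P (z m)
  have hmt : ∀ m, m ≤ t m := fun m => by
    have h1 : m ≤ z m := by
      show m ≤ zz A₀ P κ v m
      rw [zz_eq]; exact le_fZ _ _ _
    exact h1.trans ((le_fA _).trans (fA_le_fT P _))
  have hct : ∀ m, code (Th P (Am A₀ P κ v m)) = t m := fun m => code_ThAm A₀ P κ v m
  have hca : ∀ m, code (Am A₀ P κ v m) = fA (z m) := fun m => code_Am A₀ P κ v m
  -- the scale
  have hsc : ∀ m, ∃ i, max (r m) (t m) ≤ xs i := fun m => ⟨_, w6.le_apply⟩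
  let jj : ℕ → ℕ := fun m => Nat.find (hsc m) - 1
  have j1 : ∀ m, xs 0 < m → max (r m) (t m) ≤ xs (jj m + 1) ∧ xs (jj m) < max (r m) (t m) := by
    intro m hm
    have h0 : 0 < Nat.find (hsc m) := by
      rw [Nat.find_pos]
      have := hmt m
      have h2 : t m ≤ max (r m) (t m) := le_max_right _ _
      omega
    have e : jj m + 1 = Nat.find (hsc m) := by
      show Nat.find (hsc m) - 1 + 1 = _
      omega
    constructor
    · rw [e]; exact Nat.find_spec (hsc m)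
    · have h3 := Nat.find_min (hsc m) (m := jj m) (by omega)
      omega
  let nn : ℕ → ℕ := fun j => 2 ^ (tw (j + 1) (j + 2) / 4)
  -- the parameters
  let ι := {p : ℕ × ℕ // xs (v + κ + 2) ≤ p.1 ∧ v ≤ p.2 ∧ p.2 ≤ nn (jj p.1)}
  have hm0 : ∀ i : ι, xs 0 < i.1.1 := fun i => lt_of_lt_of_le (w6 (by omega)) i.2.1
  have hjj : ∀ (m c : ℕ), xs 0 < m → xs (c + 1) ≤ m → c ≤ jj m := by
    intro m c hm hc
    by_contra hlt
    have h1 := (j1 m hm).1
    have h2 := w6.monotone (show jj m + 1 ≤ c by omega)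
    have h3 := w6 (Nat.lt_succ_self c)
    have h4 := hmt m
    have h5 : t m ≤ max (r m) (t m) := le_max_right _ _
    have h6 : xs (Nat.succ c) = xs (c + 1) := rfl
    omega
  have hbig : ∀ i : ι, v + κ + 1 ≤ nn (jj i.1.1) := fun i => by
    have h1 := hjj i.1.1 (v + κ + 1) (hm0 i) i.2.1
    have h2 := w3 (jj i.1.1 + 1)
    show v + κ + 1 ≤ 2 ^ (tw (jj i.1.1 + 1) (jj i.1.1 + 2) / 4)
    have e : jj i.1.1 + 1 + 1 = jj i.1.1 + 2 := rfl
    rw [e] at h2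
    omega
  have hpow : ∀ i : ι, nn (jj i.1.1) ^ 4 = ys (jj i.1.1 + 1) := fun i =>
    w2 (jj i.1.1 + 1) (by omega)
  let D : ι → CD := fun i =>
    ⟨(h.names.1 (xs (jj i.1.1 + 1)) (pb C₀ (2 * xs (jj i.1.1)))).choose,
     (h.names.1 (xs (jj i.1.1 + 1)) (pb C₀ (2 * xs (jj i.1.1)))).choose_spec.choose, _, _,
     (h.names.1 (xs (jj i.1.1 + 1)) (pb C₀ (2 * xs (jj i.1.1)))).choose_spec.choose_spec⟩
  have hDM : ∀ i, (D i).M = xs (jj i.1.1 + 1) := fun _ => rfl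
  have hDK : ∀ i, (D i).K = pb C₀ (2 * xs (jj i.1.1)) := fun _ => rfl
  have brt : ∀ i : ι, max (r i.1.1) (t i.1.1) ≤ (D i).M := fun i => (j1 i.1.1 (hm0 i)).1
  have br : ∀ i : ι, r i.1.1 ≤ (D i).M := fun i => (le_max_left _ _).trans (brt i)
  have bt : ∀ i : ι, t i.1.1 ≤ (D i).M := fun i => (le_max_right _ _).trans (brt i)
  have ba : ∀ i : ι, fA (z i.1.1) ≤ (D i).M := fun i => (fA_le_fT P _).trans (bt i)
  have bz : ∀ i : ι, z i.1.1 ≤ (D i).M := fun i => (le_fA _).trans (ba i)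
  have bm : ∀ i : ι, i.1.1 ≤ (D i).M := fun i => (hmt i.1.1).trans (bt i)
  have by' : ∀ i : ι, ys (jj i.1.1 + 1) ≤ (D i).M := fun i => w5 _
  have bnn : ∀ i : ι, nn (jj i.1.1) ≤ (D i).M := fun i => by
    refine le_trans ?_ (by' i)
    rw [← hpow i]
    exact Nat.le_self_pow (by norm_num) _
  have bn : ∀ i : ι, i.1.2 ≤ (D i).M := fun i => i.2.2.2.trans (bnn i)
  have bv : ∀ i : ι, v ≤ (D i).M := fun i => by
    have := hbig i; have := bnn i; omega
  have bs : ∀ i : ι, xs (jj i.1.1) ≤ (D i).M := fun i => w6.monotone (Nat.le_succ _)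
  let Cs := clsB P κ ++ clsD (σ0 A₀ P κ)
  have hcl : ∀ c ∈ clsB P κ, c ∈ Cs := fun _ hc => List.mem_append_left _ hc
  have hcD : ∀ c ∈ clsD (σ0 A₀ P κ), c ∈ Cs := fun _ hc => List.mem_append_right _ hc
  have hOk : ∀ c ∈ Cs, c.Ok := (h.ok A₀ P κ h.tru).1
  have hΓ : ∀ _ : ι, ∀ c ∈ Cs, c.fm ∈ U A₀ P κ := fun _ c hc => cls_U hc
  have hlt : ∀ i a, a ≤ (D i).M → a < (D i).L := fun i a ha => ha.trans_lt (D i).h.numlt
  have nums := fun i => h.nums h.str P κ Cs (D i).N (D i).ν (D i).M (D i).K hcl (D i).h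
  -- facts
  have f0 : ∀ i : ι, Der Cs (D i).N (D i).N.length (o3 iD1 v i.1.1 (z i.1.1)) := fun i => by
    have e : z i.1.1 = fZ (σ0 A₀ P κ) v i.1.1 := zz_eq A₀ P κ v i.1.1
    rw [e]
    exact (nums i).2.2.1 (σ0 A₀ P κ) v i.1.1 hcD (by rw [← e]; exact bz i)
  have f1 : ∀ i : ι, Der Cs (D i).N (D i).N.length (o2 iAf (z i.1.1) (fA (z i.1.1))) := fun i =>
    (nums i).1 (z i.1.1) (ba i)
  have f2 : ∀ i : ι, Der Cs (D i).N (D i).N.length (o2 iD2 (z i.1.1) (t i.1.1)) := fun i =>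
    (nums i).2.1 (z i.1.1) (bt i)
  have f3 : ∀ i : ι, Der Cs (D i).N (D i).N.length (o2 iSS (xs (jj i.1.1))
      (xs (jj i.1.1 + 1))) := fun i =>
    (nums i).2.2.2.2.1 (jj i.1.1) le_rfl
  have f4 : ∀ i : ι, Der Cs (D i).N (D i).N.length
      (o2 iSG (xs (jj i.1.1 + 1)) (ys (jj i.1.1 + 1))) := fun i =>
    (nums i).2.2.2.1 (jj i.1.1 + 1) le_rfl
  have f5 : ∀ i : ι, Der Cs (D i).N (D i).N.length
      (o2 iOk2 (t i.1.1) (xs (jj i.1.1))) := fun i => by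
    have hj := (j1 i.1.1 (hm0 i)).2
    by_cases hts : t i.1.1 ≤ xs (jj i.1.1)
    · have hrs : xs (jj i.1.1) < r i.1.1 := by
        rcases lt_max_iff.1 hj with hj | hj
        · exact hj
        · omega
      have hno := r2 i.1.1 _ hrs
      have e1 : Der Cs (D i).N (D i).N.length (o2 iC (t i.1.1) (xs (jj i.1.1))) := by
        have := hBF P κ Cs (D i).N (D i).ν (D i).M (D i).K hcl (D i).h
          (Th P (Am A₀ P κ v i.1.1)) (xs (jj i.1.1))
          (by rw [hct]; exact hno) (by rw [hct]; exact bt i) (bs i)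
          (by rw [hct, hDK]; exact pb_le le_rfl (by omega))
        rwa [hct] at this
      exact Der.step' (Cs := Cs) (c := ⟨[o2 iC 0 1], o2 iOk2 0 1⟩) 0
        [t i.1.1, xs (jj i.1.1)] (hcl _ (by simp [clsB, clNum]))
        (Nat.zero_lt_of_lt (D i).h.numlt) (by
          intro y hy
          simp only [List.mem_cons, List.not_mem_nil, or_false] at hy
          rcases hy with rfl | rfl
          · exact hlt i _ (bt i)
          · exact hlt i _ (bs i)) (by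
          intro p hp
          simp only [List.mem_cons, List.not_mem_nil, or_false] at hp
          rw [hp]; exact e1)
    · have e1 : Der Cs (D i).N (D i).N.length (o2 iLt (xs (jj i.1.1)) (t i.1.1)) :=
        (nums i).2.2.2.2.2.1 _ _ (by omega) (bt i)
      exact Der.step' (Cs := Cs) (c := ⟨[o2 iLt 1 0], o2 iOk2 0 1⟩) 0
        [t i.1.1, xs (jj i.1.1)] (hcl _ (by simp [clsB, clNum]))
        (Nat.zero_lt_of_lt (D i).h.numlt) (by
          intro y hy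
          simp only [List.mem_cons, List.not_mem_nil, or_false] at hy
          rcases hy with rfl | rfl
          · exact hlt i _ (bt i)
          · exact hlt i _ (bs i)) (by
          intro p hp
          simp only [List.mem_cons, List.not_mem_nil, or_false] at hp
          rw [hp]; exact e1)
  have f6 : ∀ i : ι, Der Cs (D i).N (D i).N.length
      (o2 iLk i.1.2 (ys (jj i.1.1 + 1))) := fun i => by
    have := (nums i).2.2.2.2.2.2.2 i.1.2 (nn (jj i.1.1)) (by have := hbig i; omega) i.2.2.2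
      ((hpow i).le.trans (by' i))
    rwa [hpow i] at this
  have f7 : ∀ i : ι, Der Cs (D i).N (D i).N.length (o2 iLe v i.1.2) :=
    fun i => (nums i).2.2.2.2.2.2.1 _ _ i.2.2.1 (bn i)
  have rob : ∀ _ : ι, ∀ ψ ∈ robinson, ψ ∈ U A₀ P κ := fun _ _ hψ => B_U (rob_B hψ)
  have exx : ∀ _ : ι, ∀ ψ ∈ ExAx, ψ ∈ U A₀ P κ := fun _ _ hψ => B_U (ex_B hψ)
  have g := fun (q : ι → At) (hq : ∀ i, Der Cs (D i).N (D i).N.length (q i)) =>
    PP.der (Γ := fun _ : ι => U A₀ P κ) (D := D) h.eng h.names hOk hΓ q hq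
  have sχ := sp_χ (D := D) h.names
  -- the axiom implies the consistency of the theory
  have p1 : PP (fun _ : ι => U A₀ P κ) (fun i => (D i).L) fun i => (D i).χ.imp
      ((n2 iTh v (z i.1.1)).imp (conAll P (Am A₀ P κ v i.1.1))) := by
    refine h.ax1 (fun _ : ι => U A₀ P κ) D A₀ P κ (fun _ => v) (fun i => i.1.1) h.num rob
      (fun _ => ax1_U) bv bm bz (fun i => by rw [hca]; exact ba i) (g _ f0) ?_
    have := g _ f1
    have e : ∀ i : ι, code (Am A₀ P κ v i.1.1) = fA (z i.1.1) := fun i => hca i.1.1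
    simp only [e]
    exact this
  have p2 := h.use (fun _ : ι => U A₀ P κ) D A₀ P κ (fun _ => v) (fun i => i.1.1) bv bm bz
  have p3 : PP (fun _ : ι => U A₀ P κ) (fun i => (D i).L) fun i =>
      (al A₀ P κ v i.1.1).imp (conAll P (Am A₀ P κ v i.1.1)) := by
    obtain ⟨C, hC⟩ := PP.transr p2 p1
    obtain ⟨E, hE⟩ := h.elim
    refine ⟨(C + 2) * E, fun i => ?_⟩
    have c1 : (al A₀ P κ v i.1.1).Closed := (h.ok A₀ P κ h.tru).2.2.1 h.num v i.1.1 _
      (List.mem_cons_of_mem _ (ax_al A₀ P κ v i.1.1))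
    have c2 := ((h.ok A₀ P κ h.tru).2.2.2 h.num (Am A₀ P κ v i.1.1)).1
    exact (hE (U A₀ P κ) (D i).N _ _ (rob i) (exx i) (D i).h.good (by
      intro x hx
      rcases hx with hx | hx
      · exact c1 x hx
      · exact c2 x hx) (hC i)).mono (pb_comp E C _)
  -- the refutation
  have sal : SP (fun i => (D i).L) fun i : ι => al A₀ P κ v i.1.1 := p3.sp.left
  have p4 : PP (fun i : ι => al A₀ P κ v i.1.1 :: U A₀ P κ) (fun i => (D i).L) fun i =>
      conAll P (Am A₀ P κ v i.1.1) := by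
    have a1 : PP (fun i : ι => al A₀ P κ v i.1.1 :: U A₀ P κ) (fun i => (D i).L) fun i =>
        (al A₀ P κ v i.1.1).imp (conAll P (Am A₀ P κ v i.1.1)) :=
      p3.weak fun _ _ hψ => List.mem_cons_of_mem _ hψ
    refine a1.mp ?_
    obtain ⟨C, hC⟩ := sal
    exact ⟨C, fun i => (Proves.ax (List.mem_cons_self ..)).mono (hC i)⟩
  have p5 : PP (fun i : ι => Th P (Am A₀ P κ v i.1.1)) (fun i => (D i).L) fun _ => Fm.bot := by
    obtain ⟨C, hC⟩ := h.proof
    refine ⟨(2 + 1 + 2) * C, fun i => ?_⟩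
    obtain ⟨l, l1, l2⟩ := r1 i.1.1
    refine (hC _ l l2).mono (le_trans (pb_le le_rfl ?_) (pb_comp C (2 + 1) (D i).L))
    have a1 := strs_le_code (Th P (Am A₀ P κ v i.1.1))
    rw [hct] at a1
    have a2 := hlt i _ (br i)
    have a3 := hlt i _ (bt i)
    have a4 := mul_pb 2 1 (D i).L
    have a5 := le_pb (C := 1) (D i).L le_rfl
    omega
  have p6 : PP (fun i : ι => al A₀ P κ v i.1.1 :: U A₀ P κ) (fun i => (D i).L) fun _ => Fm.bot := by
    obtain ⟨C, hC⟩ := p5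
    obtain ⟨E, hE⟩ := p4
    refine ⟨_, fun i => (Proves.cut (α := conAll P (Am A₀ P κ v i.1.1)) (fun ψ hψ => ?_) (hC i)
      (hE i)).mono (pb_add C E _)⟩
    have hψ' : ψ = conAll P (Am A₀ P κ v i.1.1) ∨ ψ = al A₀ P κ v i.1.1 ∨ ψ ∈ B A₀ P κ := by
      rcases List.mem_cons.1 hψ with hψ | hψ
      · exact .inl hψ
      · exact .inr (List.mem_cons.1 hψ)
    rcases hψ' with hψ | hψ | hψ
    · exact .inl hψ
    · exact .inr (hψ ▸ List.mem_cons_self ..)
    · exact .inr (List.mem_cons_of_mem _ (B_U hψ))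
  have p7 : PP (fun _ : ι => U A₀ P κ) (fun i => (D i).L) fun i => (al A₀ P κ v i.1.1).imp Fm.bot := by
    obtain ⟨C, hC⟩ := p6
    obtain ⟨E, hE⟩ := sal
    obtain ⟨G, hG⟩ := h.ded
    refine ⟨(C + E + 1 + 2) * G, fun i => ?_⟩
    have c1 : (al A₀ P κ v i.1.1).Closed := (h.ok A₀ P κ h.tru).2.2.1 h.num v i.1.1 _
      (List.mem_cons_of_mem _ (ax_al A₀ P κ v i.1.1))
    refine (hG (U A₀ P κ) _ _ _ c1 (hC i)).mono (le_trans (pb_le le_rfl ?_)
      (pb_comp G (C + E + 1) _))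
    have := hE i
    have := pb_add C E (D i).L
    simp only at *
    omega
  have p8 : PP (fun _ : ι => U A₀ P κ) (fun i => (D i).L) fun i => (D i).χ.imp
      (n2 iTh v (z i.1.1)).neg := by
    have a1 := h.intro' (fun _ : ι => U A₀ P κ) D A₀ P κ (fun _ => v) (fun i => i.1.1) rob bv bm bz
    exact PP.transr a1 (PP.k sχ p7)
  have p9 := h.ax2 (fun _ : ι => U A₀ P κ) D (fun _ => v) (fun i => z i.1.1) (fun i => t i.1.1)
    (fun i => xs (jj i.1.1))
    (fun i => xs (jj i.1.1 + 1)) (fun i => ys (jj i.1.1 + 1))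
    (fun _ => ax2_U) bv bz bt bs (fun _ => le_rfl) by' (g _ f2) (g _ f3) (g _ f4) (g _ f5) p8
  have fin := h.lnk (fun _ : ι => U A₀ P κ) (fun _ => Th P (U A₀ P κ)) D P
    (fun i => i.1.2) (fun i => ys (jj i.1.1 + 1)) h.num rob exx
    (fun _ => B_U link_B) bv bn by' (g _ f7) (g _ f6) p9
  obtain ⟨C, hC⟩ := fin
  obtain ⟨c₁, hc₁⟩ := conAt_small' h.num ((h.ok A₀ P κ h.tru).2.2.2 h.num (Th P (U A₀ P κ))).2
    h.cons_V (fun _ hψ => B_U (rob_B hψ)) v
  obtain ⟨j₀, hj⟩ := h.g2 C₀ C K E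
  let J := j₀ + v + κ + N + c₁ + 1
  have hm₀ : xs 0 < xs (J + 1) := w6 (by omega)
  have hJ : J ≤ jj (xs (J + 1)) := hjj _ J hm₀ le_rfl
  obtain ⟨μ, h0, h1, h2⟩ := hj (jj (xs (J + 1))) (by omega)
  refine ⟨μ, by omega, fun n hn => ?_⟩
  by_cases hnt : n < v
  · refine (hc₁ n hnt).mono ?_
    have := w7 (E + 1) μ
    omega
  · let i₀ : ι := ⟨(xs (J + 1), n), w6.monotone (by omega), by omega, hn.trans h1⟩
    exact (hC i₀).mono ((pb_le le_rfl (D i₀).h.len).trans h2)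

/-- The dichotomy. -/
theorem Parts.main (h : Parts A₀ P κ) : ∃ A : List Fml, (∀ ψ ∈ robinson, ψ ∈ A) ∧
    (∀ ψ ∈ A₀, ψ ∈ A) ∧ (∀ ψ ∈ A, ψ.Closed) ∧ (∀ k, ¬ Proves (Th P A) k Fm.bot) ∧
    ∀ E K N : ℕ, ∃ μ ≥ N, ∀ n ≤ tw E (μ ^ K), Proves A (tw (E + 1) μ)
      (conAt P (Th P A) n) := by
  by_cases hT : ∃ m, ∀ k, ¬ Proves (Th P (Am A₀ P κ (vv A₀ P κ) m)) k Fm.bot
  · obtain ⟨m, hm⟩ := hT
    exact ⟨Am A₀ P κ (vv A₀ P κ) m, fun ψ hψ => mem_Am (rob_B hψ), fun ψ hψ =>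
      mem_Am (A0_B hψ), fun ψ hψ => (h.ok A₀ P κ h.tru).2.2.1 h.num _ m ψ
        (List.mem_cons_of_mem _ hψ), hm, h.case1 m hm⟩
  · push Not at hT
    exact ⟨U A₀ P κ, fun ψ hψ => B_U (rob_B hψ), fun ψ hψ => B_U (A0_B hψ),
      (h.ok A₀ P κ h.tru).2.1 h.num, h.cons_V, h.case2 hT⟩

end Pool.Agent.T9h88.IO
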