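import Pool.Agent.T9h88.IO.Defs

/-!
# The clauses and the theories
-/

set_option autoImplicit false

namespace Pool.Agent.T9h88.IO

open Pool.Agent.TH672 (Fm Str upd num digits varStr LogK)
open Pool.Agent.TH636.BC
open Pool.Agent.T9h6.BC (sz cl)

/-- clauses for `eqT` and `memT` -/
def clEq : List Cl := [
  ⟨[nl 0, nl 1, nl 2, nd 2 2 3], o3 iEq 0 1 3⟩,
  ⟨[nl 0, nd 1 2 3, nl 4], o3 iEq 0 3 4⟩,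
  ⟨[nd 1 2 3, nl 0, nl 4], o3 iEq 3 0 4⟩,
  ⟨[nd 0 1 2, nd 3 4 5, o3 iEq 0 3 6, nl 6], o3 iEq 2 5 6⟩,
  ⟨[nd 0 1 2, nd 3 4 5, o3 iEq 0 3 6, nd 7 8 6, o3 iEq 1 4 9], o3 iEq 2 5 9⟩,
  ⟨[nl 1], o3 iMem 0 1 1⟩,
  ⟨[nd 1 2 3, o3 iEq 0 1 4, nl 4, o3 iMem 0 2 5], o3 iMem 0 3 5⟩,
  ⟨[nd 1 2 3, o3 iEq 0 1 4, nd 5 6 4, nl 7, nd 7 7 8], o3 iMem 0 3 8⟩]

/-- clauses for `freeT` -/
def clFree : List Cl := [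
  ⟨[nl 1], o3 iFree 0 1 1⟩,
  ⟨[nl 2, nd 1 2 3], o3 iFree 0 3 2⟩,
  ⟨[nl 1, nd 2 3 4, nd 1 4 5, o3 iMem 0 3 6], o3 iFree 0 5 6⟩,
  ⟨[nl 1, nd 1 2 3, nd 4 5 6, nd 3 6 7, o3 iFree 0 4 8, nl 8, o3 iFree 0 5 9], o3 iFree 0 7 9⟩,
  ⟨[nl 1, nd 1 2 3, nd 4 5 6, nd 3 6 7, o3 iFree 0 4 8, nd 9 10 8, nd 1 1 11], o3 iFree 0 7 11⟩,
  ⟨[nd 1 2 3, nd 3 4 5, nd 6 7 8, nd 5 8 9, o3 iEq 0 6 10, nl 10, o3 iFree 0 7 11],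
    o3 iFree 0 9 11⟩,
  ⟨[nd 1 2 3, nd 3 4 5, nd 6 7 8, nd 5 8 9, o3 iEq 0 6 10, nd 11 12 10, nl 13], o3 iFree 0 9 13⟩]

/-- clauses for `fforT` -/
def clFfor : List Cl := [
  ⟨[nl 2, nd 2 2 3], .op iFfor 0 1 2 3⟩,
  ⟨[nl 2, nd 3 2 4, nd 2 2 5], .op iFfor 0 1 4 5⟩,
  ⟨[nl 2, nd 3 4 5, nd 2 5 6, nd 2 2 7], .op iFfor 0 1 6 7⟩,
  ⟨[nl 2, nd 2 3 4, nd 5 6 7, nd 4 7 8, .op iFfor 0 1 5 9, nl 9], .op iFfor 0 1 8 9⟩,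
  ⟨[nl 2, nd 2 3 4, nd 5 6 7, nd 4 7 8, .op iFfor 0 1 5 9, nd 10 11 9, .op iFfor 0 1 6 12],
    .op iFfor 0 1 8 12⟩,
  ⟨[nd 2 3 4, nd 4 5 6, nd 7 8 9, nd 6 9 10, o3 iEq 7 1 11, nd 12 13 11, nl 14, nd 14 14 15],
    .op iFfor 0 1 10 15⟩,
  ⟨[nd 2 3 4, nd 4 5 6, nd 7 8 9, nd 6 9 10, o3 iEq 7 1 11, nl 11, o3 iFree 1 8 12, nl 12,
    nd 12 12 13], .op iFfor 0 1 10 13⟩,
  ⟨[nd 2 3 4, nd 4 5 6, nd 7 8 9, nd 6 9 10, o3 iEq 7 1 11, nl 11, o3 iFree 1 8 12, nd 13 14 12,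
    o3 iEq 7 0 15, nl 15, .op iFfor 0 1 8 16], .op iFfor 0 1 10 16⟩,
  ⟨[nd 2 3 4, nd 4 5 6, nd 7 8 9, nd 6 9 10, o3 iEq 7 1 11, nl 11, o3 iFree 1 8 12, nd 13 14 12,
    o3 iEq 7 0 15, nd 16 17 15, nl 18], .op iFfor 0 1 10 18⟩]

/-- clauses for `subV` and `subT` -/
def clSub : List Cl := [
  ⟨[nl 2], .op iSubV 0 1 2 2⟩,
  ⟨[nd 2 3 4, o3 iEq 2 0 5, nl 5, .op iSubV 0 1 3 6, nd 2 6 7], .op iSubV 0 1 4 7⟩,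
  ⟨[nd 2 3 4, o3 iEq 2 0 5, nd 8 9 5, .op iSubV 0 1 3 6, nd 1 6 7], .op iSubV 0 1 4 7⟩,
  ⟨[nl 2], .op iSub 0 1 2 2⟩,
  ⟨[nl 2, nd 3 2 4], .op iSub 0 1 4 4⟩,
  ⟨[nl 2, nd 3 4 5, nd 2 5 6, .op iSubV 0 1 4 7, nd 3 7 8, nd 2 8 9], .op iSub 0 1 6 9⟩,
  ⟨[nl 2, nd 2 3 4, nd 5 6 7, nd 4 7 8, .op iSub 0 1 5 9, .op iSub 0 1 6 10, nd 9 10 11,
    nd 4 11 12], .op iSub 0 1 8 12⟩,
  ⟨[nd 2 3 4, nd 4 5 6, nd 7 8 9, nd 6 9 10, o3 iEq 7 0 11, nl 11, .op iSub 0 1 8 12, nd 7 12 13,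
    nd 6 13 14], .op iSub 0 1 10 14⟩,
  ⟨[nd 2 3 4, nd 4 5 6, nd 7 8 9, nd 6 9 10, o3 iEq 7 0 11, nd 12 13 11], .op iSub 0 1 10 10⟩]

/-- clauses for `sw1`, `swT` and `nthT` -/
def clSw : List Cl := [
  ⟨[nl 0], .op iSw1 0 1 2 0⟩,
  ⟨[nd 3 4 0, o3 iEq 1 2 5, nd 6 7 5, nl 8, nd 8 8 9], .op iSw1 0 1 2 9⟩,
  ⟨[nd 3 4 0, o3 iEq 1 2 5, nl 5, o3 iEq 1 3 6, nl 6], .op iSw1 0 1 2 6⟩,
  ⟨[nd 3 4 0, o3 iEq 1 2 5, nl 5, o3 iEq 1 3 6, nd 7 8 6, o3 iEq 2 4 9], .op iSw1 0 1 2 9⟩,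
  ⟨[nl 1, nl 2, nd 1 1 3], .op iSw 0 1 2 3⟩,
  ⟨[nl 1, nd 2 3 4], .op iSw 0 1 4 1⟩,
  ⟨[nd 1 2 3, nl 4], .op iSw 0 3 4 4⟩,
  ⟨[nd 1 2 3, nd 4 5 6, .op iSw1 0 1 4 7, nl 7], .op iSw 0 3 6 7⟩,
  ⟨[nd 1 2 3, nd 4 5 6, .op iSw1 0 1 4 7, nd 8 9 7, .op iSw 0 2 5 10], .op iSw 0 3 6 10⟩,
  ⟨[nl 0], o3 iNth 0 1 0⟩,
  ⟨[nd 0 1 2, nl 3], o3 iNth 2 3 0⟩,
  ⟨[nl 1, nd 0 1 2, nd 3 4 5], o3 iNth 2 5 0⟩,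
  ⟨[nd 1 2 3, nd 0 3 4, nd 5 6 7, o3 iNth 3 6 8], o3 iNth 4 7 8⟩]

/-- the instruction `10 = node 9 (node 2 (node 3 (node 4 5)))` -/
def arg : List At := [nd 4 5 6, nd 3 6 7, nd 2 7 8, nd 9 8 10]

/-- `9` has a right spine of length `k + 1` that ends with `20` -/
def opq : ℕ → List At
  | 0 => [nd 21 20 9]
  | k + 1 => nd 21 20 22 :: (List.range k).map (fun j => nd (23 + 2 * j) (22 + 2 * j) (24 + 2 * j)) ++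
      [nd (23 + 2 * k) (22 + 2 * k) 9]

/-- `9` has a right spine of length `k` that ends with `nil` -/
def opk : ℕ → List At
  | 0 => [nl 9]
  | k + 1 => nl 20 :: opq k

/-- `44 = dflt` -/
def dfl : List At := [nl 40, nd 40 40 41, nd 40 41 42, nd 40 42 43, nd 40 43 44]

/-- clauses for `lineT` and `runT` -/
def clLine : List Cl := [
  ⟨nl 10 :: dfl, .op iLine 0 1 10 44⟩,
  ⟨[nl 2, nd 9 2 10] ++ dfl, .op iLine 0 1 10 44⟩,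
  ⟨[nl 3, nd 2 3 8, nd 9 8 10] ++ dfl, .op iLine 0 1 10 44⟩,
  ⟨[nl 4, nd 3 4 7, nd 2 7 8, nd 9 8 10] ++ dfl, .op iLine 0 1 10 44⟩,
  ⟨arg ++ opk 0 ++ nl 0 :: dfl, .op iLine 0 1 10 44⟩,
  ⟨arg ++ opk 0 ++ [nd 16 17 0, o3 iNth 0 2 18], .op iLine 0 1 10 18⟩,
  ⟨arg ++ opk 1 ++ [nl 11, nd 11 11 12, nd 3 2 13, nd 12 13 14, nd 2 14 15, nd 12 15 16],
    .op iLine 0 1 10 16⟩,
  ⟨arg ++ opk 2 ++ [nl 11, nd 11 11 12, nd 3 4 13, nd 12 13 14, nd 2 14 15, nd 12 15 16,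
    nd 2 3 17, nd 12 17 18, nd 2 4 19, nd 12 19 45, nd 18 45 46, nd 12 46 47, nd 16 47 48,
    nd 12 48 49], .op iLine 0 1 10 49⟩,
  ⟨arg ++ opk 3 ++ [nl 11, nd 11 11 12, nd 2 11 13, nd 12 13 14, nd 14 11 15, nd 12 15 16,
    nd 16 2 17, nd 12 17 18], .op iLine 0 1 10 18⟩,
  ⟨arg ++ opk 4 ++ [.op iFfor 3 2 4 16, nl 16] ++ dfl, .op iLine 0 1 10 44⟩,
  ⟨arg ++ opk 4 ++ [nl 11, nd 11 11 12, .op iFfor 3 2 4 13, nd 14 15 13, .op iSub 2 3 4 16,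
    nd 12 11 17, nd 2 4 18, nd 17 18 19, nd 19 16 45, nd 12 45 46], .op iLine 0 1 10 46⟩,
  ⟨arg ++ opk 5 ++ [nl 11, nd 11 11 12, o3 iFree 2 3 13, nl 13, nd 3 4 14, nd 12 14 15,
    nd 2 15 16, nd 12 11 17, nd 17 16 18, nd 2 4 19, nd 17 19 45, nd 3 45 46, nd 12 46 47,
    nd 18 47 48, nd 12 48 49], .op iLine 0 1 10 49⟩,
  ⟨arg ++ opk 5 ++ [o3 iFree 2 3 16, nd 17 18 16] ++ dfl, .op iLine 0 1 10 44⟩,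
  ⟨arg ++ opk 6 ++ [nl 11, nd 2 11 12, nd 2 12 13, nd 11 13 14, nd 11 14 15],
    .op iLine 0 1 10 15⟩,
  ⟨arg ++ opk 7 ++ nl 5 :: dfl, .op iLine 0 1 10 44⟩,
  ⟨arg ++ opk 7 ++ [nl 16, nd 16 17 5] ++ dfl, .op iLine 0 1 10 44⟩,
  ⟨arg ++ opk 7 ++ [nd 16 17 18, nd 18 19 5, nd 2 3 45, .op iSw 45 18 19 46, nl 46] ++ dfl,
    .op iLine 0 1 10 44⟩,
  ⟨arg ++ opk 7 ++ [nd 16 17 18, nd 18 19 5, nd 2 3 45, .op iSw 45 18 19 46, nd 47 48 46,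
    nl 11, nd 11 11 12, nd 3 11 13, nd 2 13 14, nd 11 14 15, nd 11 15 49, nd 4 18 50, nd 11 50 51,
    nd 4 19 52, nd 11 52 53, nd 51 53 54, nd 12 54 55, nd 49 55 56, nd 12 56 57],
    .op iLine 0 1 10 57⟩,
  ⟨arg ++ opk 8 ++ [o3 iNth 1 2 13, o3 iNth 1 3 14, nl 11, nd 11 11 12, nd 14 4 15, nd 12 15 16,
    o3 iEq 13 16 17, nl 17] ++ dfl, .op iLine 0 1 10 44⟩,
  ⟨arg ++ opk 8 ++ [o3 iNth 1 2 13, o3 iNth 1 3 14, nl 11, nd 11 11 12, nd 14 4 15, nd 12 15 16,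
    o3 iEq 13 16 17, nd 18 19 17], .op iLine 0 1 10 4⟩,
  ⟨arg ++ opq 8 ++ [o3 iNth 1 3 13, nl 11, nd 11 11 12, nd 12 11 14, nd 2 13 15, nd 14 15 16],
    .op iLine 0 1 10 16⟩,
  ⟨nl 1 :: dfl ++ [nd 44 1 45], o3 iRun 0 1 45⟩,
  ⟨[nd 1 2 3, o3 iRun 0 2 4, .op iLine 0 4 1 5, nd 5 4 6], o3 iRun 0 3 6⟩]

/-- clauses for `AllS`, `DoneS`, `comb` and `NoRef` -/
def clAll : List Cl := [
  ⟨[nl 2, nl 3, .op iDone 0 1 3 2], o3 iAll 0 1 2⟩,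
  ⟨[nl 3, nd 3 4 5, .op iDone 0 1 3 5, nd 3 1 6, o3 iAll 0 6 4], o3 iAll 0 1 5⟩,
  ⟨[nl 1, o3 iRun 0 2 4, nd 5 6 4, nd 7 8 5], .op iDone 0 1 2 3⟩,
  ⟨[nl 4, nd 4 5 1, nd 2 4 6, nd 6 5 7, o3 iAll 0 7 3], .op iDone 0 1 2 3⟩,
  ⟨[nd 4 5 6, nd 6 7 1, nd 4 2 8, .op iDone 0 7 8 3], .op iDone 0 1 2 3⟩,
  ⟨[.zero 0, nl 1], o2 iCmb 0 1⟩,
  ⟨[o2 iCmb 0 1, .succ 0 2, nl 3, nd 3 1 4], o2 iCmb 2 4⟩,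
  ⟨[.zero 0, o3 iStrs 1 0 2, o2 iCmb 3 4, nl 5, o3 iAll 1 5 4], o2 iC 2 3⟩]

/-- the step of the clauses for the constant strings -/
def appStep (σ : List Bool) (b : Bool) : Cl :=
  ⟨[o2 (iApp σ) 0 1, o2 (if b then iDb1 else iDb0) 1 2], o2 (iApp (σ ++ [b])) 0 2⟩

/-- the clauses for the constant string `σ` -/
def appCl (σ : List Bool) : List Cl :=
  ⟨[], o2 (iApp []) 0 0⟩ ::
    (List.range σ.length).map (fun n => appStep (σ.take n) (σ.getD n false))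

/-- the clauses for the constant `c` -/
def kCl (c : ℕ) : List Cl :=
  ⟨[.zero 0], o1 (iK 0) 0⟩ ::
    (List.range c).map (fun n => ⟨[o1 (iK n) 0, .succ 0 1], o1 (iK (n + 1)) 1⟩)

/-- the constant strings -/
def tags : List (List Bool) := [[false, false, false, false], [false, false, false, true],
  [false, false, true, false], [false, false, true, true], [false, true, false, false],
  [false, true, false, true], [false, true, true, false], [false, true, true, true],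
  [true, false, false, false]]

/-- clauses for the strings of trees -/
def clStr : List Cl := [
  ⟨[nl 0, o2 iDb0 1 2], o3 iVar 0 1 2⟩,
  ⟨[nl 3, nd 3 0 4, o2 iDb1 1 5, o3 iVar 0 5 2], o3 iVar 4 1 2⟩,
  ⟨[nl 0, o2 (iApp [false, false, false, false]) 1 2], o3 iStr 0 1 2⟩,
  ⟨[nl 0, nd 2 0 5, nd 1 5 6, nd 0 6 7, nd 0 7 8, o2 (iApp [false, false, false, true]) 9 10,
    o3 iVar 1 10 11, o3 iVar 2 11 12], o3 iStr 8 9 12⟩,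
  ⟨[nl 0, nd 0 0 13, nd 13 0 14, nd 1 0 5, nd 14 5 7, nd 0 7 8,
    o2 (iApp [false, false, true, false]) 9 10, o3 iVar 1 10 11], o3 iStr 8 9 11⟩,
  ⟨[nl 0, nd 0 0 13, nd 13 13 14, nd 2 0 5, nd 1 5 6, nd 14 6 7, nd 0 7 8,
    o2 (iApp [false, false, true, true]) 9 10, o3 iVar 1 10 11, o3 iVar 2 11 12],
    o3 iStr 8 9 12⟩,
  ⟨[nl 0, nd 0 0 13, nd 0 13 15, nd 13 15 14, nd 3 0 4, nd 2 4 5, nd 1 5 6, nd 14 6 7, nd 0 7 8,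
    o2 (iApp [false, true, false, false]) 9 10, o3 iVar 1 10 11, o3 iVar 2 11 12,
    o3 iVar 3 12 16], o3 iStr 8 9 16⟩,
  ⟨[nl 0, nd 0 0 13, nd 0 13 15, nd 0 15 17, nd 13 17 14, nd 3 0 4, nd 2 4 5, nd 1 5 6,
    nd 14 6 7, nd 0 7 8, o2 (iApp [false, true, false, true]) 9 10, o3 iVar 1 10 11,
    o3 iVar 2 11 12, o3 iVar 3 12 16], o3 iStr 8 9 16⟩,
  ⟨[nl 0, nd 0 17 14, nd 18 0 19, nd 3 19 4, nd 2 4 5, nd 1 5 6, nd 14 6 7, nd 0 7 8,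
    o2 (iApp [false, true, true, false]) 9 20, o3 iVar 17 20 10, o3 iVar 1 10 11,
    o3 iVar 2 11 12, o3 iVar 3 12 16, o3 iVar 18 16 21], o3 iStr 8 9 21⟩,
  ⟨[nl 0, nd 0 0 1, nd 2 3 4, nd 1 4 5, o2 (iApp [false, true, true, true]) 6 7, o3 iStr 2 7 8,
    o3 iStr 3 8 9], o3 iStr 5 6 9⟩,
  ⟨[nl 0, nd 0 0 1, nd 1 0 2, nd 3 4 5, nd 2 5 6, o2 (iApp [true, false, false, false]) 7 8,
    o3 iVar 3 8 9, o3 iStr 4 9 10], o3 iStr 6 7 10⟩,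
  ⟨[nl 0], o3 iStrs 0 1 1⟩,
  ⟨[nd 0 1 2, o3 iStr 0 3 4, o3 iStrs 1 4 5], o3 iStrs 2 3 5⟩]

/-- clauses for numbers -/
def clNum (P : Fml) (κ : ℕ) : List Cl := [
  ⟨[.zero 1], .add 0 1 0⟩,
  ⟨[.succ 1 2, .add 0 1 3, .succ 3 4], .add 0 2 4⟩,
  ⟨[.zero 1], .mul 0 1 1⟩,
  ⟨[.succ 1 2, .mul 0 1 3, .add 3 0 4], .mul 0 2 4⟩,
  ⟨[.add 0 0 1, .succ 1 2], o2 iDb0 0 2⟩,
  ⟨[.add 0 0 1, .succ 1 2, .succ 2 3], o2 iDb1 0 3⟩,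
  ⟨[.zero 0], o3 iRep 0 1 1⟩,
  ⟨[o3 iRep 0 1 2, o2 (iApp bs) 2 3, .succ 0 4], o3 iRep 4 1 3⟩,
  ⟨[.zero 1], o3 iCat 0 1 0⟩,
  ⟨[o3 iCat 0 1 2, o2 iDb0 1 3, o2 iDb0 2 4], o3 iCat 0 3 4⟩,
  ⟨[o3 iCat 0 1 2, o2 iDb1 1 3, o2 iDb1 2 4], o3 iCat 0 3 4⟩,
  ⟨[.zero 0, o2 (iApp hd) 0 1, o3 iRep 2 1 3, o2 (iApp (tlx 29)) 3 4, o3 iCat 4 2 5],
    o2 iAf 2 5⟩,
  ⟨[.zero 0, o2 (iApp s1) 0 1, o2 iAf 2 3, o3 iRep 3 1 4, o2 (iApp (s2 P)) 4 5, o3 iCat 5 3 6],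
    o2 iD2 2 6⟩,
  ⟨[.zero 0, .succ 0 1], o2 iE 0 1⟩,
  ⟨[o2 iE 0 1, .succ 0 2, .add 1 1 3], o2 iE 2 3⟩,
  ⟨[.zero 0], o3 iIt 0 1 1⟩,
  ⟨[o3 iIt 0 1 2, o2 iE 2 3, .succ 0 4], o3 iIt 4 1 3⟩,
  ⟨[.succ 4 0, .mul 0 0 1, o3 iIt 0 1 2, o3 iIt 0 0 3], o3 iSc 0 2 3⟩,
  ⟨[o3 iSc 0 1 2], o2 iSG 1 2⟩,
  ⟨[o3 iSc 0 1 2, .succ 0 3, o3 iSc 3 4 5], o2 iSS 1 4⟩,
  ⟨[.succ 0 1], o2 iLt 0 1⟩,
  ⟨[o2 iLt 0 1, .succ 1 2], o2 iLt 0 2⟩,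
  ⟨[], o2 iLe 0 0⟩,
  ⟨[o2 iLe 0 1, .succ 1 2], o2 iLe 0 2⟩,
  ⟨[o2 iC 0 1], o2 iOk2 0 1⟩,
  ⟨[o2 iLt 1 0], o2 iOk2 0 1⟩,
  ⟨[.mul 0 0 1, .mul 1 1 2, o1 (iK κ) 3, o2 iLe 3 0], o2 iLk 0 2⟩,
  ⟨[o2 iLe 0 1, o2 iLk 1 2], o2 iLk 0 2⟩]

/-- the clauses for the constant strings -/
def clApp (P : Fml) : List Cl := (tags ++ [hd, bs, tlx 29, s1, s2 P]).flatMap appCl

/-- the clause for `iTh` -/
def clTh : List Cl := [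
  ⟨[o2 iTh 0 1, o2 iD2 1 2, o2 iSG 3 4, o2 iLe 2 3, o2 iC 0 4], o2 iC 2 3⟩]

/-- the clauses of the base theory -/
def clsB (P : Fml) (κ : ℕ) : List Cl :=
  clEq ++ clFree ++ clFfor ++ clSub ++ clSw ++ clLine ++ clAll ++ clStr ++ clNum P κ ++ kCl κ ++
    clApp P ++ clTh

/-- the clauses for `iD1` -/
def clsD (σ : List Bool) : List Cl :=
  ⟨[.zero 0, o2 (iApp hd) 0 1, o3 iRep 3 1 4, o2 (iApp (tlx 28 ++ hd)) 4 5, o3 iRep 2 5 6,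
    o2 (iApp (tlx 27 ++ σ)) 6 7], o3 iD1 2 3 7⟩ :: (appCl (tlx 28 ++ hd) ++ appCl (tlx 27 ++ σ))

/-! ### The theories -/

/-- the formula for the fixed point; `v` is the variable `27`, `z` is the variable `29` -/
def θ0 : Fml := (o2 iTh 27 29).fm

/-- the connection of `NoRef` with the official consistency statements -/
def link (P : Fml) : Fml :=
  .all 2 (.all 3 (.all 5 (.imp (o2 iLe 2 3).fm (.imp (o2 iLk 3 5).fm (.imp (o2 iC 2 5).fm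
    (off P))))))

/-- the base theory -/
def B (A₀ : List Fml) (P : Fml) (κ : ℕ) : List Fml :=
  A₀ ++ (robinson ++ ExAx ++ link P :: (clsB P κ).map Cl.fm)

/-- the string `str θ0 ++ strs B` -/
def σ0 (A₀ : List Fml) (P : Fml) (κ : ℕ) : List Bool := str θ0 ++ strs (B A₀ P κ)

/-- the first axiom of `U`: if `θ0 (v, m, z)` for `z = fZ v m`, then the theory `A` with the code
`fA z` is consistent -/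
def Ax1 (P : Fml) : Fml := .all 27 (.all 28 (.all 29 (.all 2 (.imp (o3 iD1 27 28 29).fm
  (.imp (o2 iAf 29 2).fm (.imp θ0 (.all 3 (off P))))))))

/-- the second axiom of `U` -/
def Ax2 : Fml := .all 27 (.all 29 (.all 2 (.all 6 (.all 7 (.all 8 (.imp (o2 iD2 29 2).fm
  (.imp (o2 iSS 6 7).fm (.imp (o2 iSG 7 8).fm (.imp (o2 iOk2 2 6).fm
    (.imp θ0.neg (o2 iC 27 8).fm))))))))))

/-- the theory `U` -/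
def U (A₀ : List Fml) (P : Fml) (κ : ℕ) : List Fml :=
  Ax1 P :: Ax2 :: ((clsD (σ0 A₀ P κ)).map Cl.fm ++ B A₀ P κ)

/-- the formula `θ0` with numerals for `v` and a dummy `m` -/
def psi (v m : ℕ) : Fml := inst 28 m (inst 27 v θ0)

/-- the number used for the self-reference -/
def zz (A₀ : List Fml) (P : Fml) (κ v m : ℕ) : ℕ := code (psi v m :: B A₀ P κ)

/-- the axiom `α` -/
def al (A₀ : List Fml) (P : Fml) (κ v m : ℕ) : Fml := inst 29 (zz A₀ P κ v m) (psi v m)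

/-- the theory `A` -/
def Am (A₀ : List Fml) (P : Fml) (κ v m : ℕ) : List Fml := al A₀ P κ v m :: B A₀ P κ

end Pool.Agent.T9h88.IO
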