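import Pool.Agent.T9h6.BC.Prop

/-!
# Infinitely often short proofs of the finite consistency of `A + Con_A`: definitions
-/

set_option autoImplicit false

namespace Pool.Agent.T9h88.IO

open Pool.Agent.TH672 (Fm Str upd num digits varStr LogK)
open Pool.Agent.TH636.BC
open Pool.Agent.T9h6.BC (sz cl)

/-! ### Atoms, clauses, contexts, derivability -/

/-- atoms -/
inductive At where
  | zero (x : ℕ)
  | succ (x y : ℕ)
  | add (x y z : ℕ)
  | mul (x y z : ℕ)
  | op (i a b c d : ℕ)
  deriving DecidableEq

/-- the formula of an atom -/
def At.fm : At → Fml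
  | .zero x => .zero x
  | .succ x y => .succ x y
  | .add x y z => .add x y z
  | .mul x y z => .mul x y z
  | .op i a b c d => .op i a b c d

/-- renaming of the variables -/
def At.ren (ρ : ℕ → ℕ) : At → At
  | .zero x => .zero (ρ x)
  | .succ x y => .succ (ρ x) (ρ y)
  | .add x y z => .add (ρ x) (ρ y) (ρ z)
  | .mul x y z => .mul (ρ x) (ρ y) (ρ z)
  | .op i a b c d => .op i (ρ a) (ρ b) (ρ c) (ρ d)

/-- all variables are below `M` -/
def At.lt (M : ℕ) : At → Prop
  | .zero x => x < M
  | .succ x y => x < M ∧ y < M
  | .add x y z => x < M ∧ y < M ∧ z < M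
  | .mul x y z => x < M ∧ y < M ∧ z < M
  | .op _ a b c d => a < M ∧ b < M ∧ c < M ∧ d < M

/-- a clause: premises and conclusion -/
structure Cl where
  prem : List At
  concl : At

/-- the variables of the clauses are below `60`; the names are the variables `60`, `61`, ... -/
def VB : ℕ := 60

/-- the clause without quantifiers -/
def Cl.body (c : Cl) : Fml := c.prem.foldr (fun p f => .imp p.fm f) c.concl.fm

/-- the clause as a sentence -/
def Cl.fm (c : Cl) : Fml := cl c.body VB

/-- the variables of the clause are below `60` -/
def Cl.Ok (c : Cl) : Prop := (∀ p ∈ c.prem, p.lt VB) ∧ c.concl.lt VB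

/-- the conjunction of the atoms of the list; the number `j` stands for the name `60 + j` -/
def ctx : List At → Fml
  | [] => .imp .bot .bot
  | a :: N => .and (a.ren (· + VB)).fm (ctx N)

/-- the symbols for binary trees -/
def iNil : ℕ := 0
/-- `c` is the tree with the subtrees `a`, `b` -/
def iNode : ℕ := 1

/-- atoms that introduce the name `j` -/
inductive Intro (j : ℕ) : At → Prop
  | zero : Intro j (.zero j)
  | succ (i : ℕ) : i < j → Intro j (.succ i j)
  | nil : Intro j (.op iNil j j j j)
  | node (a b : ℕ) : a < j → b < j → Intro j (.op iNode a b j j)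

/-- the `j`-th member from the end introduces the name `j` -/
def Good : List At → Prop
  | [] => True
  | a :: N => Intro N.length a ∧ Good N

/-- derivability from the atoms in `N` by clauses; all names are below `M` -/
inductive Der (Cs : List Cl) (N : List At) (M : ℕ) : At → Prop
  | base {a : At} : a ∈ N → Der Cs N M a
  | step {c : Cl} (ρ : ℕ → ℕ) : c ∈ Cs → (∀ x, ρ x < M) → (∀ p ∈ c.prem, Der Cs N M (p.ren ρ)) →
      Der Cs N M (c.concl.ren ρ)

/-- the existence axioms for trees -/
def ExAx : List Fml := [.ex 0 (.op iNil 0 0 0 0), .all 0 (.all 1 (.ex 2 (.op iNode 0 1 2 2)))]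

/-! ### Trees -/

/-- binary trees -/
inductive Tree where
  | nil
  | node (a b : Tree)
  deriving DecidableEq

open Pool.Agent.T9h88.IO.Tree

/-- the number of inner nodes -/
def Tree.size : Tree → ℕ
  | nil => 0
  | node a b => a.size + b.size + 1

/-- numbers as trees -/
def comb : ℕ → Tree
  | 0 => nil
  | n + 1 => node nil (comb n)

/-- the number of a tree -/
def tnum : Tree → ℕ
  | nil => 0
  | node a b => Nat.pair (tnum a) (tnum b) + 1

/-- the tree with a given number -/
def dec (n : ℕ) : Tree :=
  if h : n = 0 then nil else node (dec (Nat.unpair (n - 1)).1) (dec (Nat.unpair (n - 1)).2)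
termination_by n
decreasing_by
  · have := Nat.unpair_left_le (n - 1); omega
  · have := Nat.unpair_right_le (n - 1); omega

/-- false -/
abbrev ff : Tree := nil
/-- true -/
abbrev tt : Tree := node nil nil

/-- equality of trees -/
def eqT : Tree → Tree → Tree
  | nil, nil => tt
  | nil, node _ _ => ff
  | node _ _, nil => ff
  | node a b, node c d => if eqT a c = ff then ff else eqT b d

/-- membership in a list of trees -/
def memT (x : Tree) : Tree → Tree
  | nil => ff
  | node v r => if eqT x v = ff then memT x r else tt

/-- `x` is free in the formula. Trees as formulas: `nil` and `node t nil` are `⊥`,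
`node nil (node k vs)` is the atomic formula with the symbol `k` and the list `vs` of variables,
`node (node nil c) (node a b)` is `a → b`, `node (node (node p q) c) (node u a)` is `∀ u a`. -/
def freeT (x : Tree) : Tree → Tree
  | nil => ff
  | node _ nil => ff
  | node nil (node _ vs) => memT x vs
  | node (node nil _) (node a b) => if freeT x a = ff then freeT x b else tt
  | node (node (node _ _) _) (node u a) => if eqT x u = ff then freeT x a else ff

/-- `y` is free for `x` -/
def fforT (y x : Tree) : Tree → Tree
  | nil => tt
  | node _ nil => tt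
  | node nil (node _ _) => tt
  | node (node nil _) (node a b) => if fforT y x a = ff then ff else fforT y x b
  | node (node (node _ _) _) (node u a) =>
    if eqT u x = ff then
      if freeT x a = ff then tt else if eqT u y = ff then fforT y x a else ff
    else tt

/-- replacement in a list of variables -/
def subV (x y : Tree) : Tree → Tree
  | nil => nil
  | node v r => if eqT v x = ff then node v (subV x y r) else node y (subV x y r)

/-- substitution of `y` for `x` -/
def subT (x y : Tree) : Tree → Tree
  | nil => nil
  | node t nil => node t nil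
  | node nil (node k vs) => node nil (node k (subV x y vs))
  | node (node nil c) (node a b) => node (node nil c) (node (subT x y a) (subT x y b))
  | node (node (node p q) c) (node u a) =>
    if eqT u x = ff then node (node (node p q) c) (node u (subT x y a))
    else node (node (node p q) c) (node u a)

/-- `w = v`, or `v = x` and `w = y`, where `p = (x, y)` -/
def sw1 : Tree → Tree → Tree → Tree
  | nil, _, _ => ff
  | node x y, v, w => if eqT v w = ff then (if eqT v x = ff then ff else eqT w y) else tt

/-- the same for lists -/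
def swT (p : Tree) : Tree → Tree → Tree
  | nil, nil => tt
  | nil, node _ _ => ff
  | node _ _, nil => ff
  | node v r, node w s => if sw1 p v w = ff then ff else swT p r s

/-- the `i`-th member of a list (the last member if there is no `i`-th) -/
def nthT : Tree → Tree → Tree
  | nil, _ => nil
  | node a _, nil => a
  | node a nil, node _ _ => a
  | node _ (node p q), node _ i => nthT (node p q) i

/-- implication -/
abbrev impT (a b : Tree) : Tree := node tt (node a b)
/-- universal quantifier -/
abbrev allT (u a : Tree) : Tree := node (node tt nil) (node u a)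
/-- negation -/
abbrev negT (a : Tree) : Tree := impT a nil
/-- equation -/
abbrev eqA (x y : Tree) : Tree := node nil (node nil (node x (node y nil)))
/-- the default line of a proof: `v₀ = v₀` -/
abbrev dflt : Tree := eqA nil nil

/-- the length of the right spine, as a number -/
def opc : Tree → ℕ
  | nil => 0
  | node _ r => opc r + 1

/-- the line of a proof with the instruction number `k` and the arguments `a`, `b`, `c`, `d`; `g` is
the list of the axioms, `π` the list of the previous lines -/
def lineO (g π : Tree) (k : ℕ) (a b c d : Tree) : Tree :=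
  match k with
  | 0 => if g = nil then dflt else nthT g a
  | 1 => impT a (impT b a)
  | 2 => impT (impT a (impT b c)) (impT (impT a b) (impT a c))
  | 3 => impT (negT (negT a)) a
  | 4 => if fforT b a c = ff then dflt else impT (allT a c) (subT a b c)
  | 5 => if freeT a b = ff then impT (allT a (impT b c)) (impT b (allT a c)) else dflt
  | 6 => eqA a a
  | 7 => match d with
    | node (node v vs) ws =>
      if swT (node a b) (node v vs) ws = ff then dflt
      else impT (eqA a b) (impT (node nil (node c (node v vs))) (node nil (node c ws)))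
    | _ => dflt
  | 8 => if eqT (nthT π a) (impT (nthT π b) c) = ff then dflt else c
  | _ => allT a (nthT π b)

/-- the line of the instruction `j` -/
def lineT (g π : Tree) : Tree → Tree
  | node o (node a (node b (node c d))) => lineO g π (opc o) a b c d
  | _ => dflt

/-- the list of the lines of the proof with the list of instructions `l` (the last line first) -/
def runT (g : Tree) : Tree → Tree
  | nil => node dflt nil
  | node j r => node (lineT g (runT g r) j) (runT g r)

/-- the last line is not `⊥` -/
def Ok0 (g l : Tree) : Prop := ∃ a b p, runT g l = node (node a b) p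

/-- `k` is a list of frames: `nil` is the frame of a missing first (and second) subtree, `node a _`
is the frame of a missing second subtree for the first subtree `a`. All trees that arise from `t`
and the frames in `k` by filling the gaps with trees with at most `n` inner nodes together are no
refutations. -/
def DoneS (g : Tree) : Tree → Tree → ℕ → Prop
  | nil, t, _ => Ok0 g t
  | node nil k, t, n => ∀ a : Tree, a.size ≤ n → DoneS g k (node t a) (n - a.size)
  | node (node a _) k, t, n => DoneS g k (node a t) n

/-- the same for all trees `t` -/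
def AllS (g k : Tree) (n : ℕ) : Prop := ∀ t : Tree, t.size ≤ n → DoneS g k t (n - t.size)

/-! ### Encoding of formulas -/

/-- lists of variables -/
def encV : List ℕ → Tree
  | [] => nil
  | x :: l => node (comb x) (encV l)

/-- atomic formulas -/
def encA (k : Tree) (l : List ℕ) : Tree := node nil (node k (encV l))

/-- formulas -/
def enc : Fml → Tree
  | .bot => nil
  | .eq x y => encA nil [x, y]
  | .zero x => encA (node tt nil) [x]
  | .succ x y => encA (node tt (comb 1)) [x, y]
  | .add x y z => encA (node tt (comb 2)) [x, y, z]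
  | .mul x y z => encA (node tt (comb 3)) [x, y, z]
  | .op i a b c d => encA (node nil (comb i)) [a, b, c, d]
  | .imp φ ψ => impT (enc φ) (enc ψ)
  | .all x φ => allT (comb x) (enc φ)

/-- lists of formulas -/
def encL : List Fml → Tree
  | [] => nil
  | φ :: Γ => node (enc φ) (encL Γ)

/-- There is no refutation from the list `Γ` with the code `u` whose list of instructions is a tree
with at most `n` inner nodes. -/
def NoRef (u n : ℕ) : Prop := ∀ Γ : List Fml, code Γ = u → ∀ l : Tree, l.size ≤ n → Ok0 (encL Γ) l

/-! ### The symbols -/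

/-- `eqT a b = c` -/
def iEq : ℕ := 2
/-- `memT a b = c` -/
def iMem : ℕ := 3
/-- `freeT a b = c` -/
def iFree : ℕ := 4
/-- `fforT a b c = d` -/
def iFfor : ℕ := 5
/-- `subV a b c = d` -/
def iSubV : ℕ := 6
/-- `subT a b c = d` -/
def iSub : ℕ := 7
/-- `sw1 a b c = d` -/
def iSw1 : ℕ := 8
/-- `swT a b c = d` -/
def iSw : ℕ := 9
/-- `nthT a b = c` -/
def iNth : ℕ := 10
/-- `lineT a b c = d` -/
def iLine : ℕ := 11
/-- `runT a b = c` -/
def iRun : ℕ := 12
/-- `AllS a b n` if `c = comb n` -/
def iAll : ℕ := 13
/-- `DoneS a b c n` if `d = comb n` -/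
def iDone : ℕ := 14
/-- `b = comb a` -/
def iCmb : ℕ := 15
/-- if `a = comb x`: the string of `c` is the string of `b` followed by `varStr x` -/
def iVar : ℕ := 16
/-- if `a = enc φ`: the string of `c` is the string of `b` followed by `str φ` -/
def iStr : ℕ := 17
/-- if `a = encL Γ`: the string of `c` is the string of `b` followed by `strs Γ` -/
def iStrs : ℕ := 18
/-- `NoRef a b` -/
def iC : ℕ := 19
/-- the string of `b` is the string of `a` followed by `0` -/
def iDb0 : ℕ := 20
/-- the string of `b` is the string of `a` followed by `1` -/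
def iDb1 : ℕ := 21
/-- the string of `c` is the string of `b` followed by `bs ⋯ bs` (`a` times) -/
def iRep : ℕ := 22
/-- the string of `c` is the string of `a` followed by the string of `b` -/
def iCat : ℕ := 23
/-- `b` is the code of `inst 29 a ψ :: Δ` if `a` is the code of `ψ :: Δ` -/
def iAf : ℕ := 24
/-- `b` is the code of `all 3 (con P A) :: A` for the list `A` with the code `iAf a` -/
def iD2 : ℕ := 25
/-- `c` is the code of `inst 28 b (inst 27 a θ) :: B` -/
def iD1 : ℕ := 26
/-- `b = 2 ^ a` -/
def iE : ℕ := 27
/-- `c = tw a b` -/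
def iIt : ℕ := 28
/-- `a = j + 1`, `b = xs j`, `c = ys j` -/
def iSc : ℕ := 30
/-- `a = xs j`, `b = ys j` -/
def iSG : ℕ := 31
/-- `a = xs j`, `b = xs (j + 1)` -/
def iSS : ℕ := 32
/-- `a < b` -/
def iLt : ℕ := 33
/-- `a ≤ b` -/
def iLe : ℕ := 34
/-- `NoRef a b` or `b < a` -/
def iOk2 : ℕ := 35
/-- `κ * a ^ 2 ≤ b` -/
def iLk : ℕ := 36
/-- for all `x = xs j`, `y = ys j` with `t ≤ x`, where `t = fT P b`: if `NoRef a y`, then
`NoRef t x` -/
def iTh : ℕ := 37
/-- the string of `b` is the string of `a` followed by `σ` -/
def iApp (σ : List Bool) : ℕ := 100 + 2 * num σ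
/-- `a = c` -/
def iK (c : ℕ) : ℕ := 101 + 2 * c

/-- iterated exponentials -/
def tw (i a : ℕ) : ℕ := (fun x => 2 ^ x)^[i] a

/-- the scale -/
def xs (j : ℕ) : ℕ := tw (j + 1) ((j + 1) * (j + 1))

/-- the smaller numbers -/
def ys (j : ℕ) : ℕ := tw (j + 1) (j + 1)

/-- the end of the string of `inst x n φ` before the string of `φ` -/
def tlx (x : ℕ) : List Bool :=
  [true, false, false, false] ++ varStr x ++ [false, true, true, true] ++ str (.eq x 0)

/-- `Con_u (n)` for the variables `u = 2`, `n = 3` -/
def off (P : Fml) : Fml := inst 4 (code [Fm.bot]) P.neg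

/-- the formula `Con_Γ` -/
def conAll (P : Fml) (Γ : List Fml) : Fml := .all 3 (con P Γ)

/-- the theory `Γ + Con_Γ` -/
def Th (P : Fml) (Γ : List Fml) : List Fml := conAll P Γ :: Γ

/-- the string before the blocks in the string of `conAll P A` -/
def s1 : List Bool := [true, false, false, false] ++ varStr 3 ++ hd

/-- the string after the blocks in the string of `conAll P A` -/
def s2 (P : Fml) : List Bool := tlx 2 ++ str (off P)

/-- `num (digits w ++ σ ++ ⋯)` -/
def app (w : ℕ) (σ : List Bool) : ℕ := num (digits w ++ σ)

/-- the string `bs ⋯ bs` (`n` times) -/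
def rep (n : ℕ) : List Bool := (List.replicate n bs).flatten

/-- the function of `iAf` -/
def fA (z : ℕ) : ℕ := num (hd ++ rep z ++ tlx 29 ++ digits z)

/-- the function of `iD2` -/
def fT (P : Fml) (z : ℕ) : ℕ := num (s1 ++ rep (fA z) ++ s2 P ++ digits (fA z))

/-- the function of `iD1`, where `σ` is the string `str θ ++ strs B` -/
def fZ (σ : List Bool) (v m : ℕ) : ℕ :=
  num (hd ++ rep m ++ tlx 28 ++ hd ++ rep v ++ tlx 27 ++ σ)

/-- the interpretation of the symbols in the standard model; the parameters are the formula `P`,
the string `σ = str θ ++ strs B` and the constant `κ` -/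
def I (P : Fml) (σ : List Bool) (κ : ℕ) (i a b c d : ℕ) : Prop :=
  match i with
  | 0 => dec a = nil
  | 1 => dec c = node (dec a) (dec b)
  | 2 => eqT (dec a) (dec b) = dec c
  | 3 => memT (dec a) (dec b) = dec c
  | 4 => freeT (dec a) (dec b) = dec c
  | 5 => fforT (dec a) (dec b) (dec c) = dec d
  | 6 => subV (dec a) (dec b) (dec c) = dec d
  | 7 => subT (dec a) (dec b) (dec c) = dec d
  | 8 => sw1 (dec a) (dec b) (dec c) = dec d
  | 9 => swT (dec a) (dec b) (dec c) = dec d
  | 10 => nthT (dec a) (dec b) = dec c
  | 11 => lineT (dec a) (dec b) (dec c) = dec d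
  | 12 => runT (dec a) (dec b) = dec c
  | 13 => ∀ n, dec c = comb n → AllS (dec a) (dec b) n
  | 14 => ∀ n, dec d = comb n → DoneS (dec a) (dec b) (dec c) n
  | 15 => dec b = comb a
  | 16 => ∃ x, dec a = comb x ∧ c = app b (varStr x)
  | 17 => ∃ φ, dec a = enc φ ∧ c = app b (str φ)
  | 18 => ∃ Γ, dec a = encL Γ ∧ c = app b (strs Γ)
  | 19 => NoRef a b
  | 20 => b = 2 * a + 1
  | 21 => b = 2 * a + 2
  | 22 => c = app b (rep a)
  | 23 => c = app a (digits b)
  | 24 => b = fA a
  | 25 => b = fT P a
  | 26 => c = fZ σ a b
  | 27 => b = 2 ^ a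
  | 28 => c = tw a b
  | 30 => ∃ j, a = j + 1 ∧ b = xs j ∧ c = ys j
  | 31 => ∃ j, a = xs j ∧ b = ys j
  | 32 => ∃ j, a = xs j ∧ b = xs (j + 1)
  | 33 => a < b
  | 34 => a ≤ b
  | 35 => NoRef a b ∨ b < a
  | 36 => κ * a ^ 2 ≤ b
  | 37 => ∀ j, fT P b ≤ xs j → NoRef a (ys j) → NoRef (fT P b) (xs j)
  | i => if i % 2 = 0 then b = app a (digits ((i - 100) / 2)) else a = (i - 101) / 2

/-- the standard model -/
def Std (P : Fml) (σ : List Bool) (κ : ℕ) : Str ℕ where
  M := ℕ
  ne := ⟨0⟩
  zero x := x = 0
  succ x y := y = x + 1
  add x y z := z = x + y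
  mul x y z := z = x * y
  op i a b c d := I P σ κ i a b c d

/-- truth of an atom in the standard model -/
def At.Tr (P : Fml) (σ : List Bool) (κ : ℕ) (v : ℕ → ℕ) : At → Prop
  | .zero x => v x = 0
  | .succ x y => v y = v x + 1
  | .add x y z => v z = v x + v y
  | .mul x y z => v z = v x * v y
  | .op i a b c d => I P σ κ i (v a) (v b) (v c) (v d)

/-- truth of a clause in the standard model -/
def Cl.Tr (P : Fml) (σ : List Bool) (κ : ℕ) (c : Cl) : Prop :=
  ∀ v : ℕ → ℕ, (∀ p ∈ c.prem, p.Tr P σ κ v) → c.concl.Tr P σ κ v

/-! ### Clauses -/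

/-- unary, binary, ternary atoms -/
abbrev o1 (i a : ℕ) : At := .op i a a a a
/-- binary -/
abbrev o2 (i a b : ℕ) : At := .op i a b b b
/-- ternary -/
abbrev o3 (i a b c : ℕ) : At := .op i a b c c
/-- `c = node a b` -/
abbrev nd (a b c : ℕ) : At := .op iNode a b c c
/-- `a = nil` -/
abbrev nl (a : ℕ) : At := .op iNil a a a a

end Pool.Agent.T9h88.IO
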