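import Pool.Agent.T9h88.IO.Basic
import Pool.Agent.T9h80.IO.Elim

/-!
# Families of formulas with proofs of polynomial length
-/

set_option autoImplicit false

namespace Pool.Agent.T9h88.IO

open Pool.Agent.TH672 (Fm Str upd num digits varStr LogK Pv)
open Pool.Agent.TH636.BC
open Pool.Agent.T9h6.BC (sz cl sz_imp sz_all sz_pos TD fo pp)
open Pool.Agent.T9h80.IO (taut freeFor_of_not_free)

theorem pb_lin (a b c C D x : ℕ) :
    a * pb C x + b * pb D x + c ≤ pb (a + b + c + C + D + 2) x := by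
  have h1 := mul_pb a C x
  have h2 := mul_pb b D x
  have h3 := const_le_pb c x
  have h4 := pb_add (a + C) (b + D) x
  have h5 := pb_add (a + C + (b + D) + 1) c x
  have h6 : pb (a + C + (b + D) + 1 + c + 1) x = pb (a + b + c + C + D + 2) x := by
    congr 1; ring
  omega

variable {ι : Type} {Γ Δ : ι → List Fml} {f : ι → ℕ} {φ ψ χ α β γ : ι → Fml}

/-- the formulas `φ i` have proofs of polynomial length -/
def PP (Γ : ι → List Fml) (f : ι → ℕ) (φ : ι → Fml) : Prop :=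
  ∃ C, ∀ i, Proves (Γ i) (pb C (f i)) (φ i)

/-- the formulas `φ i` have polynomial length -/
def SP (f : ι → ℕ) (φ : ι → Fml) : Prop := ∃ C, ∀ i, sz (φ i) ≤ pb C (f i)

theorem PP.sp (h : PP Γ f φ) : SP f φ := by
  obtain ⟨C, hC⟩ := h
  exact ⟨C, fun i => (hC i).sz⟩

theorem SP.imp (h1 : SP f φ) (h2 : SP f ψ) : SP f fun i => (φ i).imp (ψ i) := by
  obtain ⟨C, hC⟩ := h1
  obtain ⟨D, hD⟩ := h2
  refine ⟨_, fun i => le_trans ?_ (pb_lin 1 1 4 C D (f i))⟩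
  have := hC i
  have := hD i
  rw [sz_imp]; omega

theorem SP.left (h : SP f fun i => (φ i).imp (ψ i)) : SP f φ := by
  obtain ⟨C, hC⟩ := h
  refine ⟨C, fun i => le_trans ?_ (hC i)⟩
  rw [sz_imp]; omega

theorem SP.right (h : SP f fun i => (φ i).imp (ψ i)) : SP f ψ := by
  obtain ⟨C, hC⟩ := h
  refine ⟨C, fun i => le_trans ?_ (hC i)⟩
  rw [sz_imp]; omega

theorem SP.and (h1 : SP f φ) (h2 : SP f ψ) : SP f fun i => (φ i).and (ψ i) := by
  obtain ⟨C, hC⟩ := h1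
  obtain ⟨D, hD⟩ := h2
  refine ⟨_, fun i => le_trans ?_ (pb_lin 1 1 20 C D (f i))⟩
  have := hC i
  have := hD i
  rw [T9h6.BC.sz_and]; omega

theorem SP.const (φ : Fml) : SP f fun _ => φ :=
  ⟨sz φ, fun i => const_le_pb _ _⟩

theorem SP.le {c : ℕ} (h : ∀ i, sz (φ i) ≤ c * (f i + 1)) : SP f φ := by
  refine ⟨_, fun i => (h i).trans (le_trans (Nat.mul_le_mul_left c ?_) (mul_pb c 1 (f i)))⟩
  have := le_pb (C := 1) (f i) le_rfl
  omega

theorem PP.of (C : ℕ) (h : ∀ i, Proves (Γ i) (pb C (f i)) (φ i)) : PP Γ f φ := ⟨C, h⟩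

theorem PP.const {φ : Fml} {Γ₀ : List Fml} {m : ℕ} (h : Proves Γ₀ m φ)
    (hΓ : ∀ i, ∀ ψ ∈ Γ₀, ψ ∈ Γ i) : PP Γ f fun _ => φ :=
  ⟨m, fun i => (h.weak (hΓ i)).mono (const_le_pb _ _)⟩

theorem PP.mp (h1 : PP Γ f fun i => (φ i).imp (ψ i)) (h2 : PP Γ f φ) : PP Γ f ψ := by
  obtain ⟨C, hC⟩ := h1
  obtain ⟨D, hD⟩ := h2
  refine ⟨_, fun i => ((hC i).mp (hD i)).mono (le_trans ?_ (pb_lin 2 1 0 C D (f i)))⟩
  omega

theorem PP.k (hχ : SP f χ) (h : PP Γ f φ) : PP Γ f fun i => (χ i).imp (φ i) := by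
  obtain ⟨C, hC⟩ := h
  obtain ⟨D, hD⟩ := hχ
  refine ⟨_, fun i => ((hC i).k (χ i)).mono (le_trans ?_ (pb_lin 5 2 16 C D (f i)))⟩
  have := hD i
  omega

theorem PP.s (h1 : PP Γ f fun i => (χ i).imp ((φ i).imp (ψ i)))
    (h2 : PP Γ f fun i => (χ i).imp (φ i)) : PP Γ f fun i => (χ i).imp (ψ i) := by
  obtain ⟨C, hC⟩ := h1
  obtain ⟨D, hD⟩ := h2
  exact ⟨_, fun i => ((hC i).s (hD i)).mono (pb_lin 20 9 40 C D (f i))⟩

theorem PP.trans (h1 : PP Γ f fun i => (χ i).imp (φ i)) (h2 : PP Γ f fun i => (φ i).imp (ψ i)) :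
    PP Γ f fun i => (χ i).imp (ψ i) := by
  obtain ⟨C, hC⟩ := h1
  obtain ⟨D, hD⟩ := h2
  exact ⟨_, fun i => ((hC i).trans (hD i)).mono (pb_lin 60 100 400 C D (f i))⟩

theorem PP.weak (h : PP Γ f φ) (hΓ : ∀ i, ∀ ψ ∈ Γ i, ψ ∈ Δ i) : PP Δ f φ := by
  obtain ⟨C, hC⟩ := h
  exact ⟨C, fun i => (hC i).weak (hΓ i)⟩

theorem PP.gen {x : ℕ} (h : PP Γ f φ) : PP Γ f fun i => .all x (φ i) := by
  obtain ⟨C, hC⟩ := h
  refine ⟨_, fun i => ((hC i).gen x).mono (le_trans ?_ (pb_lin 2 0 (x + 5) C 0 (f i)))⟩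
  omega

/-- `χ → φ` gives `χ → ∀ x φ` -/
theorem PP.genr {x : ℕ} (h : PP Γ f fun i => (χ i).imp (φ i)) (hx : ∀ i, ¬ (χ i).Free x) :
    PP Γ f fun i => (χ i).imp (.all x (φ i)) := by
  refine PP.mp (φ := fun i => .all x ((χ i).imp (φ i))) ?_ h.gen
  obtain ⟨C, hC⟩ := h
  refine ⟨_, fun i => (Proves.log (LogK.dist x (χ i) (φ i) (hx i))).mono
    (le_trans ?_ (pb_lin 2 0 (2 * x + 40) C 0 (f i)))⟩
  have := (hC i).sz
  rw [sz_imp] at this
  simp only [sz_imp, sz_all]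
  omega

theorem PP.inst {x : ℕ} {y : ι → ℕ} (h : PP Γ f fun i => .all x (φ i))
    (hy : ∀ i, y i ≤ f i + 60) (hf : ∀ i, (φ i).FreeFor (y i) x) :
    PP Γ f fun i => (φ i).subst x (y i) := by
  obtain ⟨C, hC⟩ := h
  refine ⟨1 + 252 + (C + 4 + 2), fun i => ((hC i).inst (hf i)).mono ?_⟩
  have h1 := hy i
  have h2 : 2 * (y i + 3) ≤ 252 * pb 1 (f i) := by
    have := le_pb (C := 1) (f i) le_rfl
    omega
  have h3 : pb C (f i) + 4 ≤ pb (C + 4 + 2) (f i) := by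
    have := pb_lin 1 0 4 C 0 (f i)
    have h4 : pb (1 + 0 + 4 + C + 0 + 2) (f i) ≤ pb (1 + C + 4 + 2) (f i) :=
      pb_le (by omega) le_rfl
    have h5 := pb_add C 4 (f i)
    have h6 := const_le_pb 4 (f i)
    have h7 : pb (C + 4 + 1) (f i) ≤ pb (C + 4 + 2) (f i) := pb_le (by omega) le_rfl
    omega
  calc 2 * (y i + 3) * (pb C (f i) + 4) ≤ (252 * pb 1 (f i)) * pb (C + 4 + 2) (f i) :=
        Nat.mul_le_mul h2 h3
    _ ≤ pb (252 + 1) (f i) * pb (C + 4 + 2) (f i) := Nat.mul_le_mul_right _ (mul_pb _ _ _)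
    _ = _ := by rw [pb_mul]

/-- valid schemes -/
theorem PP.taut (θ : Fml) (h : ∀ (S : Str ℕ) (v : ℕ → S.M), Fm.Sat S θ v)
    {a b c d : ι → Fml} (ha : SP f a) (hb : SP f b) (hc : SP f c) (hd : SP f d)
    (e : ∀ i M, (TD.prp (fo (a i) (b i) (c i) (d i)) M).tr θ = φ i) : PP Γ f φ := by
  obtain ⟨C, hC⟩ := T9h80.IO.taut θ h
  obtain ⟨A, hA⟩ := ha
  obtain ⟨B, hB⟩ := hb
  obtain ⟨E, hE⟩ := hc
  obtain ⟨G, hG⟩ := hd
  refine ⟨C + 0 + C + (A + B + E + G) + 0 + 2, fun i => ?_⟩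
  have m : ∀ T, T ≤ A + B + E + G → pb T (f i) ≤ pb (A + B + E + G) (f i) :=
    fun T hT => pb_le hT le_rfl
  have h1 := hC (Γ i) (pb (A + B + E + G) (f i)) (a i) (b i) (c i) (d i)
    ((hA i).trans (m _ (by omega))) ((hB i).trans (m _ (by omega)))
    ((hE i).trans (m _ (by omega))) ((hG i).trans (m _ (by omega)))
  rw [e] at h1
  refine h1.mono (le_trans ?_ (pb_lin C 0 C (A + B + E + G) 0 (f i)))
  rw [Nat.mul_add]; omega

/-- permutation of premises -/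
theorem PP.perm (h : PP Γ f fun i => (χ i).imp ((α i).imp ((β i).imp (γ i)))) :
    PP Γ f fun i => (χ i).imp ((β i).imp ((α i).imp (γ i))) := by
  refine h.trans (PP.taut (.imp (.imp (pp 0) (.imp (pp 1) (pp 2)))
    (.imp (pp 1) (.imp (pp 0) (pp 2)))) ?_ h.sp.right.left h.sp.right.right.left
      h.sp.right.right.right h.sp.left fun _ _ => rfl)
  intro S v; simp only [Fm.sat_imp]; tauto

theorem PP.exp (h : PP Γ f fun i => ((α i).and (β i)).imp (γ i))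
    (ha : SP f α) (hb : SP f β) : PP Γ f fun i => (α i).imp ((β i).imp (γ i)) := by
  refine PP.mp (PP.taut (.imp (.imp (.and (pp 0) (pp 1)) (pp 2))
    (.imp (pp 0) (.imp (pp 1) (pp 2)))) ?_ ha hb h.sp.right ha fun _ _ => rfl) h
  intro S v; simp only [Fm.sat_imp, Fm.sat_and]; tauto

theorem PP.unexp (h : PP Γ f fun i => (α i).imp ((β i).imp (γ i))) :
    PP Γ f fun i => ((α i).and (β i)).imp (γ i) := by
  refine PP.mp (PP.taut (.imp (.imp (pp 0) (.imp (pp 1) (pp 2)))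
    (.imp (.and (pp 0) (pp 1)) (pp 2))) ?_ h.sp.left h.sp.right.left h.sp.right.right h.sp.left
      fun _ _ => rfl) h
  intro S v; simp only [Fm.sat_imp, Fm.sat_and]; tauto

/-- `χ → φ` gives `χ → α → φ` -/
theorem PP.kr (hα : SP f α) (h : PP Γ f fun i => (χ i).imp (φ i)) :
    PP Γ f fun i => (χ i).imp ((α i).imp (φ i)) := by
  refine h.trans (PP.taut (.imp (pp 0) (.imp (pp 1) (pp 0))) ?_ h.sp.right hα hα hα
    fun _ _ => rfl)
  intro S v; simp only [Fm.sat_imp]; tauto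

/-- `χ → α → β` and `χ → β → γ` give `χ → α → γ` -/
theorem PP.transr (h1 : PP Γ f fun i => (χ i).imp ((α i).imp (β i)))
    (h2 : PP Γ f fun i => (χ i).imp ((β i).imp (γ i))) :
    PP Γ f fun i => (χ i).imp ((α i).imp (γ i)) := by
  have h3 : PP Γ f fun i => ((α i).imp (β i)).imp (((β i).imp (γ i)).imp ((α i).imp (γ i))) :=
    PP.taut (.imp (.imp (pp 0) (pp 1)) (.imp (.imp (pp 1) (pp 2))
      (.imp (pp 0) (pp 2)))) (by intro S v; simp only [Fm.sat_imp]; tauto)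
      h1.sp.right.left h1.sp.right.right h2.sp.right.right h1.sp.left fun _ _ => rfl
  exact (h1.trans h3).s h2

end Pool.Agent.T9h88.IO
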