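import Pool.Agent.T9h88.IO.Cls

/-!
# The statements of the parts
-/

set_option autoImplicit false

namespace Pool.Agent.T9h88.IO

open Pool.Agent.TH672 (Fm Str upd num digits varStr LogK)
open Pool.Agent.TH636.BC
open Pool.Agent.T9h6.BC (sz cl)

/-- polynomial bounds -/
def pb (C x : ℕ) : ℕ := (x + 2) ^ C

/-! ### The calculus -/

/-- (S1) the deduction theorem -/
def SDed : Prop := ∃ C, ∀ (Γ : List Fml) (α φ : Fml) (m : ℕ), α.Closed →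
  Proves (α :: Γ) m φ → Proves Γ (pb C (m + sz α)) (α.imp φ)

/-- (S2) derivations by clauses give short proofs -/
def SEngine : Prop := ∀ Cs : List Cl, (∀ c ∈ Cs, c.Ok) → ∃ C, ∀ (Γ : List Fml) (N : List At)
  (M : ℕ) (q : At), (∀ c ∈ Cs, c.fm ∈ Γ) → (∀ a ∈ N, a.lt M) → Der Cs N M q →
  Proves Γ (pb C (M + sz (ctx N))) ((ctx N).imp (q.ren (· + VB)).fm)

/-- (S3) elimination of names -/
def SElim : Prop := ∃ C, ∀ (Γ : List Fml) (N : List At) (m : ℕ) (φ : Fml),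
  (∀ ψ ∈ robinson, ψ ∈ Γ) → (∀ ψ ∈ ExAx, ψ ∈ Γ) → Good N → φ.Closed →
  Proves Γ m ((ctx N).imp φ) → Proves Γ (pb C m) φ

/-- (S4a) use of formulas with numerals -/
def SInstE : Prop := ∃ C, ∀ (Γ : List Fml) (χ φ ψ : Fml) (w : ℕ → ℕ) (x n m : ℕ),
  x ≠ 0 → x ≠ 1 → ¬ φ.Free 0 → ¬ φ.Free 1 → ¬ χ.Free 0 → ¬ χ.Free 1 → ¬ χ.Free x →
  ¬ ψ.Free 0 → ¬ ψ.Free 1 → ¬ ψ.Free x → (∀ i ≤ n, w i ≠ 0 ∧ w i ≠ 1 ∧ w i ≠ x) →
  Proves Γ m (χ.imp (.zero (w 0))) →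
  (∀ i < n, Proves Γ m (χ.imp (.succ (w i) (w (i + 1))))) →
  Proves Γ m (χ.imp ((Fm.eq x (w n)).imp (φ.imp ψ))) →
  Proves Γ (pb C (m + n)) (χ.imp ((inst x n φ).imp ψ))

/-- (S4b) proofs of formulas with numerals -/
def SInstI : Prop := ∃ C, ∀ (Γ : List Fml) (χ φ ψ : Fml) (w : ℕ → ℕ) (x n m : ℕ),
  (∀ ψ ∈ robinson, ψ ∈ Γ) →
  x ≠ 0 → x ≠ 1 → ¬ φ.Free 0 → ¬ φ.Free 1 → ¬ χ.Free 0 → ¬ χ.Free 1 → ¬ χ.Free x →
  ¬ ψ.Free 0 → ¬ ψ.Free 1 → ¬ ψ.Free x → (∀ i ≤ n, w i ≠ 0 ∧ w i ≠ 1 ∧ w i ≠ x) →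
  Proves Γ m (χ.imp (.zero (w 0))) →
  (∀ i < n, Proves Γ m (χ.imp (.succ (w i) (w (i + 1))))) →
  Proves Γ m (χ.imp ((Fm.eq x (w n)).imp (ψ.imp φ))) →
  Proves Γ (pb C (m + n)) (χ.imp (ψ.imp (inst x n φ)))

/-! ### Names -/

/-- `N` introduces names for the numbers `0`, ..., `M` (the names `0`, ..., `M`) and for all trees
with at most `K` inner nodes (the names `ν t`) -/
structure Ctx (N : List At) (ν : Tree → ℕ) (M K : ℕ) : Prop where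
  good : Good N
  zero : At.zero 0 ∈ N
  succ : ∀ i < M, At.succ i (i + 1) ∈ N
  nil : nl (ν .nil) ∈ N
  node : ∀ a b : Tree, (Tree.node a b).size ≤ K → nd (ν a) (ν b) (ν (.node a b)) ∈ N
  lt : ∀ t : Tree, t.size ≤ K → ν t < N.length
  numlt : M < N.length
  len : N.length ≤ M + 2 + 4 ^ (K + 1)

/-- (S5) existence of names; bounds -/
def SNames : Prop :=
  (∀ M K : ℕ, ∃ (N : List At) (ν : Tree → ℕ), Ctx N ν M K) ∧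
  ∀ N : List At, Good N → (∀ a ∈ N, a.lt N.length) ∧ sz (ctx N) ≤ 1000 * (N.length + 1) ^ 2 ∧
    ∀ x < VB, ¬ (ctx N).Free x

/-! ### Trees -/

/-- the clauses for the checker -/
def clTree : List Cl := clEq ++ clFree ++ clFfor ++ clSub ++ clSw ++ clLine

/-- (S6) derivations for `runT` -/
def SRun : Prop := ∃ C, ∀ (Cs : List Cl) (N : List At) (ν : Tree → ℕ) (M K : ℕ),
  (∀ c ∈ clTree, c ∈ Cs) → Ctx N ν M K → ∀ g l : Tree, pb C (g.size + l.size) ≤ K →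
  (runT g l).size ≤ K ∧ Der Cs N N.length (o3 iRun (ν g) (ν l) (ν (runT g l)))

/-- (S7) derivations for `AllS` -/
def SAll : Prop := SRun → ∃ C, ∀ (Cs : List Cl) (N : List At) (ν : Tree → ℕ) (M K : ℕ),
  (∀ c ∈ clTree ++ clAll, c ∈ Cs) → Ctx N ν M K →
  (∀ (g : Tree) (n : ℕ), (∀ l : Tree, l.size ≤ n → Ok0 g l) → pb C (g.size + n) ≤ K →
    Der Cs N N.length (o3 iAll (ν g) (ν .nil) (ν (comb n)))) ∧
  ∀ n : ℕ, n ≤ M → n ≤ K → Der Cs N N.length (o2 iCmb n (ν (comb n)))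

/-- (S8) derivations for strings -/
def SStr : Prop := ∀ (P : Fml) (κ : ℕ) (Cs : List Cl) (N : List At) (ν : Tree → ℕ) (M K : ℕ),
  (∀ c ∈ clsB P κ, c ∈ Cs) → Ctx N ν M K →
  (∀ (τ : List Bool), (∀ c ∈ appCl τ, c ∈ Cs) → ∀ b : ℕ, app b τ ≤ M →
    Der Cs N N.length (o2 (iApp τ) b (app b τ))) ∧
  (∀ a : ℕ, 2 * a + 1 ≤ M → Der Cs N N.length (o2 iDb0 a (2 * a + 1))) ∧
  (∀ a : ℕ, 2 * a + 2 ≤ M → Der Cs N N.length (o2 iDb1 a (2 * a + 2))) ∧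
  (∀ a b : ℕ, a + b ≤ M → Der Cs N N.length (.add a b (a + b))) ∧
  (∀ Γ : List Fml, code Γ ≤ M → (encL Γ).size ≤ K →
    Der Cs N N.length (o3 iStrs (ν (encL Γ)) 0 (code Γ)))

/-- (S10) derivations for numbers -/
def SNum : Prop := SStr → ∀ (P : Fml) (κ : ℕ) (Cs : List Cl) (N : List At) (ν : Tree → ℕ)
  (M K : ℕ), (∀ c ∈ clsB P κ, c ∈ Cs) → Ctx N ν M K →
  (∀ z : ℕ, fA z ≤ M → Der Cs N N.length (o2 iAf z (fA z))) ∧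
  (∀ z : ℕ, fT P z ≤ M → Der Cs N N.length (o2 iD2 z (fT P z))) ∧
  (∀ (σ : List Bool) (v m : ℕ), (∀ c ∈ clsD σ, c ∈ Cs) → fZ σ v m ≤ M →
    Der Cs N N.length (o3 iD1 v m (fZ σ v m))) ∧
  (∀ j : ℕ, xs j ≤ M → Der Cs N N.length (o2 iSG (xs j) (ys j))) ∧
  (∀ j : ℕ, xs (j + 1) ≤ M → Der Cs N N.length (o2 iSS (xs j) (xs (j + 1)))) ∧
  (∀ a b : ℕ, a < b → b ≤ M → Der Cs N N.length (o2 iLt a b)) ∧
  (∀ a b : ℕ, a ≤ b → b ≤ M → Der Cs N N.length (o2 iLe a b)) ∧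
  (∀ a n : ℕ, κ ≤ n → a ≤ n → n ^ 4 ≤ M → Der Cs N N.length (o2 iLk a (n ^ 4)))

/-! ### Truth of the clauses -/

/-- (V1) -/
def VTree : Prop := ∀ (P : Fml) (σ : List Bool) (κ : ℕ), ∀ c ∈ clTree, c.Tr P σ κ

/-- (V2) -/
def VAll : Prop := ∀ (P : Fml) (σ : List Bool) (κ : ℕ), ∀ c ∈ clAll, c.Tr P σ κ

/-- (V3) -/
def VStr : Prop := ∀ (P : Fml) (σ : List Bool) (κ : ℕ), ∀ c ∈ clStr, c.Tr P σ κ

/-- (V4) -/
def VNum : Prop := ∀ (P : Fml) (σ : List Bool) (κ : ℕ),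
  ∀ c ∈ clNum P κ ++ kCl κ ++ clApp P ++ clTh ++ clsD σ, c.Tr P σ κ

/-! ### The checker is correct -/

/-- (S9a) proofs give lists of instructions -/
def SScript : Prop := ∃ κ, ∀ (Γ π : List Fml), IsProof Γ (Fm.bot :: π) →
  ∃ l : Tree, l.size ≤ κ * ((strs (Fm.bot :: π)).length + Γ.length) ^ 2 ∧ ¬ Ok0 (encL Γ) l

/-- (S9b) lists of instructions give proofs -/
def SProof : Prop := ∃ C, ∀ (Γ : List Fml) (l : Tree), ¬ Ok0 (encL Γ) l →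
  Proves Γ (pb C (l.size + (strs Γ).length)) Fm.bot

end Pool.Agent.T9h88.IO
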